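import Pool.Graph.R_seed8.Y254.Hair

/-!
The pair inequality for one piece of a stem.
-/

set_option autoImplicit false

open MeasureTheory Set
open scoped ENNReal NNReal

namespace Pool.Agent.H74.TD
open Pool.Agent.Y254 (cs_sq schur)

variable {X : Type*} [MeasurableSpace X]

/-- The mass of the points of `A` that are related to `x`. -/
noncomputable def fm (m : Measure X) (A : Set X) (far : Set (X × X)) (x : X) : ℝ≥0∞ :=
  ∫⁻ y, A.indicator 1 y * far.indicator 1 (x, y) ∂m

/-- The dual mass. -/
noncomputable def gm (m : Measure X) (B : Set X) (far : Set (X × X)) (y : X) : ℝ≥0∞ :=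
  ∫⁻ x, B.indicator 1 x * far.indicator 1 (x, y) ∂m

variable {m : Measure X} [SFinite m]

theorem far_meas {far : Set (X × X)} (hfar : MeasurableSet far) :
    Measurable fun p : X × X => far.indicator (1 : X × X → ℝ≥0∞) p :=
  measurable_one.indicator hfar

theorem fm_meas {A : Set X} (hA : MeasurableSet A) {far : Set (X × X)} (hfar : MeasurableSet far) :
    Measurable (fm m A far) := by
  unfold fm
  apply Measurable.lintegral_prod_right' (f := fun p : X × X => A.indicator (1 : X → ℝ≥0∞) p.2 *
    far.indicator 1 p)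
  exact ((measurable_one.indicator hA).comp measurable_snd).mul (far_meas hfar)

theorem gm_meas {B : Set X} (hB : MeasurableSet B) {far : Set (X × X)} (hfar : MeasurableSet far) :
    Measurable (gm m B far) := by
  unfold gm
  apply Measurable.lintegral_prod_left' (f := fun p : X × X => B.indicator (1 : X → ℝ≥0∞) p.1 *
    far.indicator 1 p)
  exact ((measurable_one.indicator hB).comp measurable_fst).mul (far_meas hfar)

omit [SFinite m] in
theorem gm_le {B : Set X} (hB : MeasurableSet B) (far : Set (X × X)) (y : X) :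
    gm m B far y ≤ m B := by
  unfold gm
  rw [← lintegral_indicator_one hB]
  apply lintegral_mono
  intro x
  dsimp only
  conv_rhs => rw [← mul_one (B.indicator 1 x)]
  gcongr
  by_cases h : (x, y) ∈ far
  · rw [indicator_of_mem h]; rfl
  · rw [indicator_of_notMem h]; exact zero_le

omit [SFinite m] in
theorem gm_ne_zero {B : Set X} {far : Set (X × X)} {y : X} (h : gm m B far y ≠ 0) :
    ∃ x ∈ B, (x, y) ∈ far := by
  by_contra hcon
  apply h
  unfold gm
  rw [lintegral_eq_zero_of_ae_eq_zero]
  refine Filter.Eventually.of_forall fun x => ?_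
  simp only [Pi.zero_apply, mul_eq_zero]
  by_cases h1 : x ∈ B
  · right
    rw [indicator_of_notMem]
    intro h3
    exact hcon ⟨x, h1, h3⟩
  · left
    rw [indicator_of_notMem h1]

theorem swap {A B : Set X} (hA : MeasurableSet A) (hB : MeasurableSet B) {far : Set (X × X)}
    (hfar : MeasurableSet far) :
    ∫⁻ x, B.indicator 1 x * fm m A far x ∂m = ∫⁻ y, A.indicator 1 y * gm m B far y ∂m := by
  unfold fm gm
  have e1 : ∀ x, B.indicator (1 : X → ℝ≥0∞) x * ∫⁻ y, A.indicator 1 y * far.indicator 1 (x, y) ∂m =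
      ∫⁻ y, B.indicator 1 x * (A.indicator 1 y * far.indicator 1 (x, y)) ∂m := by
    intro x
    rw [lintegral_const_mul]
    exact (measurable_one.indicator hA).mul ((far_meas hfar).comp measurable_prodMk_left)
  have e2 : ∀ y, A.indicator (1 : X → ℝ≥0∞) y * ∫⁻ x, B.indicator 1 x * far.indicator 1 (x, y) ∂m =
      ∫⁻ x, A.indicator 1 y * (B.indicator 1 x * far.indicator 1 (x, y)) ∂m := by
    intro y
    rw [lintegral_const_mul]
    exact (measurable_one.indicator hB).mul ((far_meas hfar).comp measurable_prodMk_right)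
  simp only [e1, e2]
  rw [lintegral_lintegral_swap]
  · apply lintegral_congr; intro y
    apply lintegral_congr; intro x
    ring
  · apply Measurable.aemeasurable
    exact ((measurable_one.indicator hB).comp measurable_fst).mul
      (((measurable_one.indicator hA).comp measurable_snd).mul (far_meas hfar))

/-- The pair inequality. -/
theorem brush {ι : Type*} {A : ι → Set X} (hA : ∀ i, MeasurableSet (A i)) {B D : Set X}
    (hB : MeasurableSet B) (hD : MeasurableSet D) {far : Set (X × X)} (hfar : MeasurableSet far)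
    (T : Finset ι) (Br : ι → ι → Prop) (hsymm : ∀ j l, Br j l ↔ Br l j)
    (hDm : ∀ j ∈ T, ∀ x ∈ B ∩ A j, ∀ y ∈ A j, (x, y) ∈ far → y ∈ D)
    (hBr : ∀ j ∈ T, ∀ l ∈ T, ∀ y ∈ A j ∩ A l, (∃ x ∈ B ∩ A j, (x, y) ∈ far) →
      (∃ x ∈ B ∩ A l, (x, y) ∈ far) → Br j l)
    {R b : ℝ≥0∞} (hb : ∀ j ∈ T, m (B ∩ A j) ≤ b)
    (hR : ∀ j ∈ T, ∑ l ∈ T, (open Classical in if Br j l then m (A j ∩ A l) else 0) ≤ R) :
    (∑ j ∈ T, ∫⁻ x, (B ∩ A j).indicator 1 x * fm m (A j) far x ∂m) ^ 2 ≤
      m D * (R * (b * ∑ j ∈ T, m (B ∩ A j))) := by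
  classical
  set W : ι → X → ℝ≥0∞ := fun j => gm m (B ∩ A j) far with hW
  have hBA : ∀ j, MeasurableSet (B ∩ A j) := fun j => hB.inter (hA j)
  set G : X → ℝ≥0∞ := fun y => ∑ j ∈ T, (A j).indicator 1 y * W j y with hG
  have hGm1 : ∀ j, Measurable fun y => (A j).indicator (1 : X → ℝ≥0∞) y * W j y :=
    fun j => (measurable_one.indicator (hA j)).mul (gm_meas (hBA j) hfar)
  have hGm : Measurable G := Finset.measurable_sum _ fun j _ => hGm1 j
  have h1 : ∑ j ∈ T, ∫⁻ x, (B ∩ A j).indicator 1 x * fm m (A j) far x ∂m =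
      ∫⁻ y, D.indicator 1 y * G y ∂m := by
    rw [Finset.sum_congr rfl fun j _ => swap (hA j) (hBA j) hfar,
      ← lintegral_finsetSum _ fun j _ => hGm1 j]
    apply lintegral_congr
    intro y
    by_cases hy : y ∈ D
    · rw [indicator_of_mem hy]
      simp [hG, hW]
    · rw [indicator_of_notMem hy, zero_mul]
      apply Finset.sum_eq_zero
      intro j hj
      by_cases hyj : y ∈ A j
      · have : W j y = 0 := by
          by_contra hne
          obtain ⟨x, hx, hxy⟩ := gm_ne_zero hne
          exact hy (hDm j hj x hx y hyj hxy)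
        rw [this, mul_zero]
      · rw [indicator_of_notMem hyj, zero_mul]
  have h2 := cs_sq m (measurable_one.indicator hD) hGm
  rw [← h1] at h2
  have h3 : ∫⁻ x, D.indicator (1 : X → ℝ≥0∞) x ^ 2 ∂m = m D := by
    rw [← lintegral_indicator_one hD]
    apply lintegral_congr
    intro y
    by_cases hy : y ∈ D
    · rw [indicator_of_mem hy]; simp
    · rw [indicator_of_notMem hy]; simp
  rw [h3] at h2
  refine h2.trans (mul_le_mul' le_rfl ?_)
  have h4 : ∀ j ∈ T, ∀ l ∈ T, ∫⁻ y, ((A j).indicator 1 y * W j y) *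
      ((A l).indicator 1 y * W l y) ∂m ≤
      (if Br j l then m (A j ∩ A l) else 0) * (m (B ∩ A j) * m (B ∩ A l)) := by
    intro j hjT l hlT
    by_cases hB' : Br j l
    · rw [if_pos hB']
      calc ∫⁻ y, ((A j).indicator 1 y * W j y) * ((A l).indicator 1 y * W l y) ∂m
          ≤ ∫⁻ y, (A j ∩ A l).indicator 1 y * (m (B ∩ A j) * m (B ∩ A l)) ∂m := by
            apply lintegral_mono
            intro y
            dsimp only
            by_cases hj : y ∈ A j
            · by_cases hl : y ∈ A l
              · rw [indicator_of_mem hj, indicator_of_mem hl,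
                  indicator_of_mem (mem_inter hj hl)]
                simp only [Pi.one_apply, one_mul]
                exact mul_le_mul' (gm_le (hBA j) far y) (gm_le (hBA l) far y)
              · rw [indicator_of_notMem hl]; simp
            · rw [indicator_of_notMem hj]; simp
        _ = _ := by
            rw [lintegral_mul_const _ (measurable_one.indicator ((hA j).inter (hA l))),
              lintegral_indicator_one ((hA j).inter (hA l))]
    · rw [if_neg hB', zero_mul]
      rw [nonpos_iff_eq_zero, lintegral_eq_zero_of_ae_eq_zero]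
      refine Filter.Eventually.of_forall fun y => ?_
      simp only [Pi.zero_apply]
      by_contra hcon
      apply hB'
      have hne := mul_ne_zero_iff.1 hcon
      have hj := mul_ne_zero_iff.1 hne.1
      have hl := mul_ne_zero_iff.1 hne.2
      have hyj : y ∈ A j := by
        by_contra h
        exact hj.1 (indicator_of_notMem h _)
      have hyl : y ∈ A l := by
        by_contra h
        exact hl.1 (indicator_of_notMem h _)
      exact hBr j hjT l hlT y ⟨hyj, hyl⟩ (gm_ne_zero hj.2) (gm_ne_zero hl.2)
  calc ∫⁻ x, G x ^ 2 ∂m = ∫⁻ y, ∑ j ∈ T, ∑ l ∈ T, ((A j).indicator 1 y * W j y) *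
      ((A l).indicator 1 y * W l y) ∂m := by
        apply lintegral_congr
        intro y
        rw [hG, sq, Finset.sum_mul_sum]
    _ = ∑ j ∈ T, ∑ l ∈ T, ∫⁻ y, ((A j).indicator 1 y * W j y) *
      ((A l).indicator 1 y * W l y) ∂m := by
        have hGm2 : ∀ j l, Measurable fun y => ((A j).indicator (1 : X → ℝ≥0∞) y *
            W j y) * ((A l).indicator 1 y * W l y) :=
          fun j l => (hGm1 j).mul (hGm1 l)
        rw [lintegral_finsetSum _ fun j _ => Finset.measurable_sum _ fun l _ => hGm2 j l]
        refine Finset.sum_congr rfl fun j _ => ?_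
        rw [lintegral_finsetSum _ fun l _ => hGm2 j l]
    _ ≤ ∑ j ∈ T, ∑ l ∈ T, (if Br j l then m (A j ∩ A l) else 0) *
        (m (B ∩ A j) * m (B ∩ A l)) :=
        Finset.sum_le_sum fun j hj => Finset.sum_le_sum fun l hl => h4 j hj l hl
    _ ≤ R * ∑ j ∈ T, m (B ∩ A j) ^ 2 := by
        apply schur
        · intro j l
          by_cases hB' : Br j l
          · rw [if_pos hB', if_pos ((hsymm j l).1 hB'), inter_comm]
          · rw [if_neg hB', if_neg (fun h => hB' ((hsymm j l).2 h))]
        · exact hR
    _ ≤ R * (b * ∑ j ∈ T, m (B ∩ A j)) := by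
        refine mul_le_mul' le_rfl ?_
        rw [Finset.mul_sum]
        apply Finset.sum_le_sum
        intro j hj
        rw [sq]
        gcongr
        exact hb j hj

end Pool.Agent.H74.TD
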