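import Pool.Agent.H74.TD.Level
import Pool.Graph.R_seed8.Y254.Ind

/-!
The choice of the number of scales.
-/

set_option autoImplicit false

open MeasureTheory Set Metric
open scoped ENNReal NNReal

namespace Pool.Agent.H74.TD
open Pool.Agent.Y254
open Pool.Agent.TH705.RR (E vb vb_pos Rod sn sn_sq sn_nonneg sn_le_one)

variable {n : ℕ}

/-- Logarithms are at most small powers. -/
theorem log_bound {η : ℝ} (hη : 0 < η) : ∃ C : ℝ, 1 ≤ C ∧ ∀ (m : ℕ) (x : ℝ), 0 < x →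
    (2 : ℝ) ^ m ≤ x → (m : ℝ) ≤ C * x ^ η := by
  have h2 : 1 < (2 : ℝ) ^ η := Real.one_lt_rpow (by norm_num) hη
  set t : ℝ := 2 ^ η - 1 with ht
  have ht0 : 0 < t := by linarith
  refine ⟨1 / t + 1, by
    have : 0 < 1 / t := by positivity
    linarith, ?_⟩
  intro m x hx hm
  have h3 : 1 + (m : ℝ) * t ≤ x ^ η := by
    calc 1 + (m : ℝ) * t ≤ (1 + t) ^ m := one_add_mul_le_pow (by linarith) m
      _ = ((2 : ℝ) ^ η) ^ m := by rw [ht]; ring
      _ = ((2 : ℝ) ^ m) ^ η := by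
          rw [← Real.rpow_natCast, ← Real.rpow_natCast, ← Real.rpow_mul (by norm_num),
            ← Real.rpow_mul (by norm_num), mul_comm]
      _ ≤ x ^ η := by gcongr
  have h4 : (m : ℝ) ≤ x ^ η / t := by
    rw [le_div_iff₀ ht0]
    linarith
  have h5 : 0 ≤ x ^ η := by positivity
  calc (m : ℝ) ≤ x ^ η / t := h4
    _ = 1 / t * x ^ η := by ring
    _ ≤ _ := by nlinarith

/-- The bound for one level of the multiplicity, with a small power of `δ`. -/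
theorem level2 (hn : 3 ≤ n) {ε : ℝ} (hε : 0 < ε) : ∃ C : ℝ, 1 ≤ C ∧ ∀ (δ : ℝ), 0 < δ → δ < 1 →
    ∀ {ι : Type} [Fintype ι] (a e : ι → E n), (∀ i, ‖e i‖ = 1) →
    (∀ i j, i ≠ j → δ ≤ ‖e i - e j‖) → (∀ i j, ‖e i - e j‖ ≤ 1) →
    ∀ (F G : Set (E n)), MeasurableSet G → G ⊆ F → ∀ (A₀ : ℝ), 1 ≤ A₀ →
    (∀ (x : E n) (r : ℝ), δ ≤ r → r ≤ 32 →
      volume (F ∩ closedBall x r) ≤ ENNReal.ofReal (A₀ * δ ^ (n - 2) * r ^ 2)) →
    ∀ (μ : ℝ), 1 ≤ μ →
    (∀ x ∈ G, mult (fun i => tube δ (a i) (e i)) x ≤ ENNReal.ofReal (2 * μ)) →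
    (∀ x ∈ G, ENNReal.ofReal μ ≤ mult (fun i => tube δ (a i) (e i)) x) →
    ∀ (S : ℝ), 0 ≤ S → ∫⁻ x in G, mult (fun i => tube δ (a i) (e i)) x = ENNReal.ofReal S →
    μ * S ^ (n - 4 + 3) ≤ C * A₀ * δ ^ (-ε) * ((Fintype.card ι : ℝ) * δ ^ (n - 1)) ^ (n - 4 + 3) := by
  have hn1 : 1 ≤ n := by omega
  have hCv := Cv_pos n
  obtain ⟨ε', hε'0, hε'1, hε'ε⟩ : ∃ ε' : ℝ, 0 < ε' ∧ ε' ≤ 1 ∧ ε' ≤ ε / 2 :=
    ⟨min (ε / 2) 1, lt_min (by positivity) one_pos, min_le_right _ _, min_le_left _ _⟩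
  obtain ⟨C, hC1, hPB⟩ := piece_bound (n := n) hn hε'0 hε'1
  have hPB' : PB n ε' C := hPB
  obtain ⟨Cη, hCη1, hlog⟩ := log_bound (η := ε / 16) (by positivity)
  obtain ⟨K0, hK01, hcount⟩ := Pool.Agent.TH705.RR.count (n := n) hn1
  set P : ℕ := n - 4 + 3 with hP
  set D1 : ℝ := 4 * (2 * Cv n) ^ P with hD1
  set D2 : ℝ := K0 * (16 * Cv n) ^ P with hD2
  set D3 : ℝ := 65536 * C * (Cη ^ 8 * 2 ^ (ε / 2)) * (32 * Cv n) ^ (n - 4) with hD3
  have hD10 : 0 ≤ D1 := by positivity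
  have hD20 : 0 ≤ D2 := by positivity
  have hD30 : 0 ≤ D3 := by positivity
  refine ⟨1 + D1 + D2 + D3, by linarith, ?_⟩
  intro δ hδ hδ1 ι _ a e he hsep hpair F G hG hGF A₀ hA₀ hF μ hμ hmul hmul2 S hS0 hS
  set T : ι → Set (E n) := fun i => tube δ (a i) (e i) with hT
  set N : ℝ := (Fintype.card ι : ℝ) with hN
  have hN00 : 0 ≤ N := by positivity
  set M : ℝ := N * δ ^ (n - 1) with hM
  have hM0 : 0 ≤ M := by positivity
  have hδε : 1 ≤ δ ^ (-ε) := by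
    apply Real.one_le_rpow_of_pos_of_le_one_of_nonpos hδ hδ1.le
    linarith
  have hbase : 0 ≤ A₀ * δ ^ (-ε) * M ^ P := by positivity
  have hfac : M ^ P ≤ A₀ * δ ^ (-ε) * M ^ P := by
    have h1 : 1 ≤ A₀ * δ ^ (-ε) := one_le_mul_of_one_le_of_one_le hA₀ hδε
    have h2 : 0 ≤ M ^ P := by positivity
    nlinarith
  -- it suffices to prove one of the bounds
  have hsuff : ∀ D : ℝ, D ≤ 1 + D1 + D2 + D3 → μ * S ^ P ≤ D * (A₀ * δ ^ (-ε) * M ^ P) →
      μ * S ^ P ≤ (1 + D1 + D2 + D3) * A₀ * δ ^ (-ε) * M ^ P := by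
    intro D hD h
    calc μ * S ^ P ≤ D * (A₀ * δ ^ (-ε) * M ^ P) := h
      _ ≤ (1 + D1 + D2 + D3) * (A₀ * δ ^ (-ε) * M ^ P) := by gcongr
      _ = _ := by ring
  have hP0 : P ≠ 0 := by omega
  rcases hS0.eq_or_lt with hSz | hSpos
  · apply hsuff 0 (by linarith)
    rw [← hSz, zero_pow hP0]
    simp
  -- the mass
  have hmassE : ENNReal.ofReal S ≤ ENNReal.ofReal (2 * Cv n * M) := by
    rw [← hS]
    exact (setLIntegral_le_lintegral _ _).trans (mass hn1 hδ hδ1 a e he)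
  have hmass : S ≤ 2 * Cv n * M := (ENNReal.ofReal_le_ofReal_iff (by positivity)).1 hmassE
  have hMpos : 0 < M := by
    by_contra hcon
    have : M = 0 := le_antisymm (not_lt.1 hcon) hM0
    rw [this] at hmass
    linarith
  have hNpos : 0 < N := by
    by_contra hcon
    have : N = 0 := le_antisymm (not_lt.1 hcon) hN00
    rw [hM, this, zero_mul] at hMpos
    exact lt_irrefl _ hMpos
  rcases lt_or_ge μ 4 with hμ4 | hμ4
  · apply hsuff D1 (by linarith)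
    calc μ * S ^ P ≤ 4 * (2 * Cv n * M) ^ P := by gcongr
      _ = D1 * M ^ P := by rw [hD1, mul_pow]; ring
      _ ≤ _ := by gcongr
  rcases le_or_gt S (16 * Cv n * δ * M) with hsmall | hbig
  · -- few points
    apply hsuff D2 (by linarith)
    have hμN : μ ≤ N := by
      by_contra hcon
      rw [not_le] at hcon
      have hGe : G = ∅ := by
        rw [Set.eq_empty_iff_forall_notMem]
        intro x hx
        have h1 := (hmul2 x hx).trans (mult_le T x)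
        rw [← ENNReal.ofReal_natCast] at h1
        have h2 := (ENNReal.ofReal_le_ofReal_iff hN00).1 h1
        linarith
      rw [hGe] at hS
      simp only [Measure.restrict_empty, lintegral_zero_measure] at hS
      have := (ENNReal.ofReal_eq_zero.1 hS.symm)
      linarith
    have hNcount : N ≤ K0 * (1 / δ) ^ (n - 1) := by
      obtain ⟨i0⟩ : Nonempty ι := by
        rw [← Fintype.card_pos_iff]
        have h9 := hNpos
        rw [hN] at h9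
        exact_mod_cast h9
      have h1 := hcount δ hδ hδ1 e he hsep (e i0) (he i0) Finset.univ 1 hδ1.le
        (fun j _ => sn_le_one _ _)
      rwa [Finset.card_univ] at h1
    have hPn : n - 1 ≤ P := by omega
    have h3 : (1 / δ) ^ (n - 1) * δ ^ P ≤ 1 := by
      calc (1 / δ) ^ (n - 1) * δ ^ P ≤ (1 / δ) ^ (n - 1) * δ ^ (n - 1) :=
            mul_le_mul_of_nonneg_left (pow_le_pow_of_le_one hδ.le hδ1.le hPn) (by positivity)
        _ = 1 := by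
            rw [← mul_pow, one_div, inv_mul_cancel₀ hδ.ne', one_pow]
    calc μ * S ^ P ≤ (K0 * (1 / δ) ^ (n - 1)) * (16 * Cv n * δ * M) ^ P := by
          gcongr
          exact hμN.trans hNcount
      _ = D2 * M ^ P * ((1 / δ) ^ (n - 1) * δ ^ P) := by
          rw [hD2, mul_pow, mul_pow _ δ]
          ring
      _ ≤ D2 * M ^ P * 1 := by gcongr
      _ = D2 * M ^ P := mul_one _
      _ ≤ _ := by gcongr
  -- the main case
  apply hsuff D3 (by linarith)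
  set lam : ℝ := S / M with hlam
  have hlam0 : 0 < lam := by positivity
  have hSlam : S = lam * M := by rw [hlam]; field_simp
  have hlam2 : lam ≤ 2 * Cv n := by
    rw [hlam, div_le_iff₀ hMpos]
    exact hmass
  have hlamδ : 16 * Cv n * δ < lam := by
    rw [hlam, lt_div_iff₀ hMpos]
    exact hbig
  have hx0 : 0 < lam / (16 * Cv n) := by positivity
  have hx1 : lam / (16 * Cv n) ≤ 1 := by
    rw [div_le_one (by positivity)]
    linarith
  obtain ⟨m, hm1, hm2⟩ := exists_nat_pow_near_of_lt_one hx0 hx1 (y := (1 / 2 : ℝ)) (by norm_num)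
    (by norm_num)
  set K : ℕ := m + 1 with hK
  have hKx : (1 / 2 : ℝ) ^ K * (16 * Cv n) < lam := by
    rwa [lt_div_iff₀ (by positivity)] at hm1
  have hKx2 : lam ≤ 32 * Cv n * (1 / 2) ^ K := by
    rw [div_le_iff₀ (by positivity)] at hm2
    calc lam ≤ (1 / 2) ^ m * (16 * Cv n) := hm2
      _ = _ := by rw [hK, pow_succ]; ring
  obtain ⟨l0, hl1, hl2⟩ := exists_nat_pow_near (x := 1 / δ) (y := (2 : ℝ)) (by
    rw [le_div_iff₀ hδ]; linarith) (by norm_num)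
  set L : ℕ := l0 + 1 with hL
  have hLδ : 1 < 2 ^ L * δ := by
    rwa [div_lt_iff₀ hδ] at hl2
  have hKδ : δ ≤ 4 * (1 / 2) ^ K := by
    have h1 : 16 * Cv n * δ < 32 * Cv n * (1 / 2) ^ K := hlamδ.trans_le hKx2
    have h2 : 16 * Cv n * δ < 16 * Cv n * (2 * (1 / 2) ^ K) := by linarith
    have h3 := lt_of_mul_lt_mul_left h2 (by positivity)
    have h4 : (0 : ℝ) < (1 / 2) ^ K := by positivity
    linarith
  have hSK : 16 * Cv n * N * (1 / 2) ^ K * δ ^ (n - 1) ≤ S := by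
    rw [hSlam, hM]
    calc 16 * Cv n * N * (1 / 2) ^ K * δ ^ (n - 1) =
          ((1 / 2) ^ K * (16 * Cv n)) * (N * δ ^ (n - 1)) := by ring
      _ ≤ lam * (N * δ ^ (n - 1)) := by gcongr
  have hA₀0 : 0 ≤ A₀ * δ ^ (n - 2) := by positivity
  have key := level1 hn (by linarith) hPB' hδ hδ1 a e he hsep hpair hG hGF hA₀0 hF hμ4 hmul hmul2
    (K := K) (L := L) (by omega) hKδ hLδ hSpos hS hSK
  have h2K : (2 : ℝ) ^ K ≤ 2 / δ := by
    have h1 : δ ≤ 2 * (1 / 2) ^ K := by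
      have h1 : 16 * Cv n * δ < 32 * Cv n * (1 / 2) ^ K := hlamδ.trans_le hKx2
      have h2 : 16 * Cv n * δ < 16 * Cv n * (2 * (1 / 2) ^ K) := by linarith
      exact (lt_of_mul_lt_mul_left h2 (by positivity)).le
    rw [le_div_iff₀ hδ]
    calc (2 : ℝ) ^ K * δ ≤ 2 ^ K * (2 * (1 / 2) ^ K) := by gcongr
      _ = 2 * (2 * (1 / 2)) ^ K := by rw [mul_pow 2 (1 / 2 : ℝ) K]; ring
      _ = 2 := by norm_num
  have h2L : (2 : ℝ) ^ L ≤ 2 / δ := by
    rw [hL, pow_succ]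
    calc (2 : ℝ) ^ l0 * 2 ≤ 1 / δ * 2 := by gcongr
      _ = _ := by ring
  have hKlog := hlog K (2 / δ) (by positivity) h2K
  have hLlog := hlog L (2 / δ) (by positivity) h2L
  have hKL : (K : ℝ) ^ 6 * (L : ℝ) ^ 2 ≤ (Cη ^ 8 * 2 ^ (ε / 2)) * δ ^ (-(ε / 2)) := by
    calc (K : ℝ) ^ 6 * (L : ℝ) ^ 2 ≤ (Cη * (2 / δ) ^ (ε / 16)) ^ 6 * (Cη * (2 / δ) ^ (ε / 16)) ^ 2 := by
          gcongr
      _ = Cη ^ 8 * ((2 / δ) ^ (ε / 16)) ^ 8 := by ring
      _ = Cη ^ 8 * (2 / δ) ^ (ε / 2) := by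
          have e8 : ((2 / δ) ^ (ε / 16)) ^ 8 = (2 / δ) ^ (ε / 2) := by
            rw [← Real.rpow_natCast ((2 / δ) ^ (ε / 16)) 8, ← Real.rpow_mul (by positivity)]
            congr 1
            push_cast
            ring
          rw [e8]
      _ = _ := by
          rw [Real.div_rpow (by norm_num) hδ.le, Real.rpow_neg hδ.le]
          ring
  have hinv : (((1 / 2 : ℝ) ^ K) ^ (n - 4))⁻¹ * lam ^ (n - 4) ≤ (32 * Cv n) ^ (n - 4) := by
    have h1 : (0 : ℝ) < (1 / 2) ^ K := by positivity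
    rw [inv_mul_le_iff₀ (by positivity), ← mul_pow]
    gcongr
    linarith
  have hδε2 : δ ^ (-ε') ≤ δ ^ (-(ε / 2)) := by
    apply Real.rpow_le_rpow_of_exponent_ge hδ hδ1.le
    linarith
  have hexp : δ ^ (-(ε / 2)) * δ ^ (-(ε / 2)) = δ ^ (-ε) := by
    rw [← Real.rpow_add hδ]
    congr 1
    ring
  have hδpow : δ ^ (n - 2) * δ ^ n * δ ^ (n - 1) * N ^ 3 = M ^ 3 := by
    rw [hM, mul_pow, ← pow_mul, ← pow_add, ← pow_add]
    have : n - 2 + n + (n - 1) = (n - 1) * 3 := by omega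
    rw [this]
    ring
  -- divide by `M ^ 3`
  have key2 : μ * lam ^ 3 ≤ 65536 * C * ((K : ℝ) ^ 6 * (L : ℝ) ^ 2) *
      (A₀ * (((1 / 2 : ℝ) ^ K) ^ (n - 4))⁻¹ * δ ^ (-ε')) := by
    have h1 : (μ * lam ^ 3) * M ^ 3 ≤ (65536 * C * ((K : ℝ) ^ 6 * (L : ℝ) ^ 2) *
        (A₀ * (((1 / 2 : ℝ) ^ K) ^ (n - 4))⁻¹ * δ ^ (-ε'))) * M ^ 3 := by
      calc (μ * lam ^ 3) * M ^ 3 = μ * S ^ 3 := by rw [hSlam]; ring
        _ ≤ _ := key
        _ = (65536 * C * ((K : ℝ) ^ 6 * (L : ℝ) ^ 2) *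
            (A₀ * (((1 / 2 : ℝ) ^ K) ^ (n - 4))⁻¹ * δ ^ (-ε'))) *
            (δ ^ (n - 2) * δ ^ n * δ ^ (n - 1) * N ^ 3) := by ring
        _ = _ := by rw [hδpow]
    exact le_of_mul_le_mul_right h1 (by positivity)
  have hC0 : 0 ≤ C := by linarith
  have hCη0 : 0 ≤ Cη := by linarith
  have key3 : μ * lam ^ P ≤ D3 * (A₀ * δ ^ (-ε)) := by
    calc μ * lam ^ P = (μ * lam ^ 3) * lam ^ (n - 4) := by rw [hP, pow_add]; ring
      _ ≤ (65536 * C * ((K : ℝ) ^ 6 * (L : ℝ) ^ 2) *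
            (A₀ * (((1 / 2 : ℝ) ^ K) ^ (n - 4))⁻¹ * δ ^ (-ε'))) * lam ^ (n - 4) := by gcongr
      _ = (65536 * C * ((K : ℝ) ^ 6 * (L : ℝ) ^ 2) * (A₀ * δ ^ (-ε'))) *
            ((((1 / 2 : ℝ) ^ K) ^ (n - 4))⁻¹ * lam ^ (n - 4)) := by ring
      _ ≤ (65536 * C * ((Cη ^ 8 * 2 ^ (ε / 2)) * δ ^ (-(ε / 2))) * (A₀ * δ ^ (-(ε / 2)))) *
            (32 * Cv n) ^ (n - 4) := by gcongr
      _ = D3 * (A₀ * (δ ^ (-(ε / 2)) * δ ^ (-(ε / 2)))) := by
          rw [hD3]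
          ring
      _ = _ := by rw [hexp]
  calc μ * S ^ P = (μ * lam ^ P) * M ^ P := by rw [hSlam, mul_pow]; ring
    _ ≤ (D3 * (A₀ * δ ^ (-ε))) * M ^ P := by gcongr
    _ = _ := by ring

end Pool.Agent.H74.TD
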