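import Pool.Agent.H74.TD.Choose
import Pool.Agent.H74.Kak.Main

/-!
The dual estimate.
-/

set_option autoImplicit false

open MeasureTheory Set Metric
open scoped ENNReal NNReal

namespace Pool.Agent.H74.TD
open Pool.Agent.Y254
open Pool.Agent.TH705.RR (E vb vb_pos Rod sn sn_sq sn_nonneg sn_le_one)

variable {n : ℕ}

theorem dual (hn : 3 ≤ n) {ε : ℝ} (hε : 0 < ε) : ∃ C : ℝ, 1 ≤ C ∧ ∀ (δ : ℝ), 0 < δ → δ < 1 →
    ∀ {ι : Type} [Fintype ι] (a e : ι → E n), (∀ i, ‖e i‖ = 1) →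
    (∀ i j, i ≠ j → δ ≤ ‖e i - e j‖) → (∀ i j, ‖e i - e j‖ ≤ 1) →
    ∀ (F : Set (E n)), MeasurableSet F → ∀ (A₀ : ℝ), 1 ≤ A₀ →
    (∀ (x : E n) (r : ℝ), δ ≤ r → r ≤ 32 →
      volume (F ∩ closedBall x r) ≤ ENNReal.ofReal (A₀ * δ ^ (n - 2) * r ^ 2)) →
    ∀ (f : E n → ℝ≥0∞), AEMeasurable f volume → (∀ x, x ∉ F → f x = 0) →
    (∫⁻ x, f x * mult (fun i => tube δ (a i) (e i)) x) ^ (n - 4 + 2 + 2) ≤
      ENNReal.ofReal (C * A₀ * δ ^ (-ε) * ((Fintype.card ι : ℝ) * δ ^ (n - 1)) ^ (n - 4 + 2 + 1)) *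
        ∫⁻ x, f x ^ (n - 4 + 2 + 2) := by
  have hn1 : 1 ≤ n := by omega
  have hCv := Cv_pos n
  obtain ⟨C, hC1, hlev⟩ := level2 (n := n) hn (half_pos hε)
  obtain ⟨K0, hK01, hcount⟩ := Pool.Agent.TH705.RR.count (n := n) hn1
  set k : ℕ := n - 4 + 2 with hk
  have hnr : (3 : ℝ) ≤ n := by exact_mod_cast hn
  have hn1r : (0 : ℝ) < (n : ℝ) - 1 := by linarith
  have hk2 : (0 : ℝ) < (k : ℝ) + 2 := by positivity
  set η : ℝ := ε / (2 * ((n : ℝ) - 1) * ((k : ℝ) + 2)) with hη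
  have hη0 : 0 < η := by positivity
  obtain ⟨Cη, hCη1, hlog⟩ := log_bound hη0
  have hCη0 : 0 < Cη := by linarith
  have hK00 : 0 < K0 := by linarith
  have hC0 : 0 < C := by linarith
  set D : ℝ := Cη ^ (k + 2) * ((2 * K0) ^ η) ^ (k + 2) * (2 ^ (k + 2) * C) with hD
  have hD0 : 0 ≤ D := by positivity
  refine ⟨1 + D, by linarith, ?_⟩
  intro δ hδ hδ1 ι _ a e he hsep hpair F hFm A₀ hA₀ hF f hf hfF
  set T : ι → Set (E n) := fun i => tube δ (a i) (e i) with hT
  have hTm : ∀ i, MeasurableSet (T i) := fun i => tube_meas _ _ _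
  have hmm : Measurable (mult T) := mult_meas hTm
  set N : ℝ := (Fintype.card ι : ℝ) with hN
  have hN0 : 0 ≤ N := by positivity
  set M : ℝ := N * δ ^ (n - 1) with hM
  have hM0 : 0 ≤ M := by positivity
  rcases Nat.eq_zero_or_pos (Fintype.card ι) with h0 | h0
  · have : IsEmpty ι := Fintype.card_eq_zero_iff.1 h0
    have h1 : ∀ x, f x * mult T x = 0 := by
      intro x
      unfold mult
      rw [Finset.univ_eq_empty, Finset.sum_empty, mul_zero]
    rw [lintegral_congr h1]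
    simp
  have hN1 : 1 ≤ N := by
    rw [hN]
    exact_mod_cast h0
  obtain ⟨J0, hJ0, hJ1⟩ := exists_nat_pow_near hN1 (by norm_num : (1 : ℝ) < 2)
  set J := J0 + 1 with hJ
  -- the levels
  set G : ℕ → Set (E n) := fun j => F ∩ {x | ENNReal.ofReal (2 ^ j) ≤ mult T x ∧
    mult T x ≤ ENNReal.ofReal (2 * 2 ^ j)} with hG
  have hGm : ∀ j, MeasurableSet (G j) := by
    intro j
    refine hFm.inter ?_
    exact (measurableSet_le measurable_const hmm).inter (measurableSet_le hmm measurable_const)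
  have hcov : ∀ x, f x * mult T x ≤ ∑ j ∈ Finset.range J, (G j).indicator (fun x => f x * mult T x) x := by
    intro x
    by_cases hxF : x ∈ F
    · rcases mult_zero_or T x with h | h
      · rw [h, mul_zero]; exact zero_le
      · have hmfin := mult_ne_top T x
        obtain ⟨y, hy⟩ : ∃ y : ℝ≥0, mult T x = y := ⟨(mult T x).toNNReal,
          (ENNReal.coe_toNNReal hmfin).symm⟩
        have hy' : mult T x = ENNReal.ofReal (y : ℝ) := by rw [hy]; simp
        have h1y : (1 : ℝ) ≤ y := by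
          rw [hy] at h
          exact_mod_cast h
        have hyN : (y : ℝ) ≤ N := by
          have h2 := mult_le T x
          rw [hy] at h2
          rw [hN]
          exact_mod_cast h2
        obtain ⟨j, hj1, hj2⟩ := exists_nat_pow_near h1y (by norm_num : (1 : ℝ) < 2)
        have hjJ : j < J := by
          by_contra hcon
          rw [not_lt] at hcon
          have h3 : (2 : ℝ) ^ J ≤ 2 ^ j := pow_le_pow_right₀ (by norm_num) hcon
          linarith
        refine le_trans ?_ (Finset.single_le_sum (f := fun j => (G j).indicator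
          (fun x => f x * mult T x) x) (fun _ _ => zero_le) (Finset.mem_range.2 hjJ))
        have hmem : x ∈ G j := by
          refine ⟨hxF, ?_, ?_⟩
          · rw [hy']
            exact ENNReal.ofReal_le_ofReal hj1
          · rw [hy']
            apply ENNReal.ofReal_le_ofReal
            rw [pow_succ] at hj2
            linarith
        rw [indicator_of_mem hmem]
    · rw [hfF x hxF, zero_mul]
      exact zero_le
  have hone : ∀ j, (∫⁻ x in G j, f x * mult T x) ^ (k + 2) ≤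
      ENNReal.ofReal (2 ^ (k + 2) * (C * A₀ * δ ^ (-(ε / 2)) * M ^ (k + 1))) *
        ∫⁻ x, f x ^ (k + 2) := by
    intro j
    set μ : ℝ := 2 ^ j with hμ
    have hμ1 : 1 ≤ μ := one_le_pow₀ (by norm_num)
    have hμ0 : 0 < μ := by linarith
    have hSfin : ∫⁻ x in G j, mult T x ≠ ∞ :=
      ne_top_of_le_ne_top ENNReal.ofReal_ne_top
        ((setLIntegral_le_lintegral _ _).trans (mass hn1 hδ hδ1 a e he))
    set S : ℝ := (∫⁻ x in G j, mult T x).toReal with hS
    have hSe : ∫⁻ x in G j, mult T x = ENNReal.ofReal S := (ENNReal.ofReal_toReal hSfin).symm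
    have hS0 : 0 ≤ S := ENNReal.toReal_nonneg
    have h1 := hlev δ hδ hδ1 a e he hsep hpair F (G j) (hGm j) inter_subset_left A₀ hA₀ hF μ hμ1
      (fun x hx => hx.2.2) (fun x hx => hx.2.1) S hS0 hSe
    have h2 : ENNReal.ofReal μ * volume (G j) ≤ ENNReal.ofReal S := by
      rw [← hSe, ← setLIntegral_const]
      exact setLIntegral_mono' (hGm j) fun x hx => hx.2.1
    have h3 : ∫⁻ x in G j, f x * mult T x ≤ ENNReal.ofReal (2 * μ) * ∫⁻ x in G j, f x := by
      calc ∫⁻ x in G j, f x * mult T x ≤ ∫⁻ x in G j, ENNReal.ofReal (2 * μ) * f x := by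
            apply setLIntegral_mono' (hGm j)
            intro x hx
            rw [mul_comm]
            gcongr
            exact hx.2.2
        _ = _ := lintegral_const_mul' _ _ ENNReal.ofReal_ne_top
    have h4 := Pool.Agent.H74.Kak.pow_lintegral_le (volume.restrict (G j)) hf.restrict k
    rw [Measure.restrict_apply_univ] at h4
    calc (∫⁻ x in G j, f x * mult T x) ^ (k + 2)
        ≤ (ENNReal.ofReal (2 * μ) * ∫⁻ x in G j, f x) ^ (k + 2) := by gcongr
      _ = ENNReal.ofReal (2 * μ) ^ (k + 2) * (∫⁻ x in G j, f x) ^ (k + 2) := mul_pow _ _ _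
      _ ≤ ENNReal.ofReal (2 * μ) ^ (k + 2) * (volume (G j) ^ (k + 1) *
            ∫⁻ x in G j, f x ^ (k + 2)) := by gcongr
      _ = (ENNReal.ofReal 2 ^ (k + 2) * ENNReal.ofReal μ *
            (ENNReal.ofReal μ * volume (G j)) ^ (k + 1)) * ∫⁻ x in G j, f x ^ (k + 2) := by
          rw [ENNReal.ofReal_mul (by norm_num), mul_pow, mul_pow, pow_succ (ENNReal.ofReal μ) (k + 1)]
          ring
      _ ≤ (ENNReal.ofReal 2 ^ (k + 2) * ENNReal.ofReal μ *
            (ENNReal.ofReal S) ^ (k + 1)) * ∫⁻ x, f x ^ (k + 2) := by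
          gcongr
          exact Measure.restrict_le_self
      _ = ENNReal.ofReal (2 ^ (k + 2) * (μ * S ^ (k + 1))) * ∫⁻ x, f x ^ (k + 2) := by
          rw [← ENNReal.ofReal_pow (by norm_num), ← ENNReal.ofReal_pow hS0,
            ← ENNReal.ofReal_mul (by positivity), ← ENNReal.ofReal_mul (by positivity), mul_assoc]
      _ ≤ _ := by
          refine mul_le_mul' (ENNReal.ofReal_le_ofReal ?_) le_rfl
          gcongr
  -- the sum
  set Z : ℝ≥0∞ := ENNReal.ofReal (2 ^ (k + 2) * (C * A₀ * δ ^ (-(ε / 2)) * M ^ (k + 1))) *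
        ∫⁻ x, f x ^ (k + 2) with hZ
  have hsum : (∫⁻ x, f x * mult T x) ^ (k + 2) ≤ (J : ℝ≥0∞) ^ (k + 2) * Z := by
    have hae : ∀ j ∈ Finset.range J, AEMeasurable ((G j).indicator (fun x => f x * mult T x)) volume :=
      fun j _ => (hf.mul hmm.aemeasurable).indicator (hGm j)
    have h5 : ∫⁻ x, f x * mult T x ≤ ∑ j ∈ Finset.range J, ∫⁻ x in G j, f x * mult T x := by
      calc ∫⁻ x, f x * mult T x ≤ ∫⁻ x, ∑ j ∈ Finset.range J,
            (G j).indicator (fun x => f x * mult T x) x := lintegral_mono hcov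
        _ = ∑ j ∈ Finset.range J, ∫⁻ x, (G j).indicator (fun x => f x * mult T x) x :=
            lintegral_finsetSum' _ hae
        _ = _ := by
            refine Finset.sum_congr rfl fun j _ => ?_
            rw [lintegral_indicator (hGm j)]
    obtain ⟨j, _, hmax⟩ := Finset.exists_max_image (Finset.range J)
      (fun j => ∫⁻ x in G j, f x * mult T x) ⟨0, Finset.mem_range.2 (by omega)⟩
    have h6 : ∫⁻ x, f x * mult T x ≤ J * ∫⁻ x in G j, f x * mult T x := by
      refine h5.trans ((Finset.sum_le_card_nsmul _ _ _ hmax).trans ?_)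
      rw [Finset.card_range, nsmul_eq_mul]
    calc (∫⁻ x, f x * mult T x) ^ (k + 2) ≤ (J * ∫⁻ x in G j, f x * mult T x) ^ (k + 2) := by
          gcongr
      _ = (J : ℝ≥0∞) ^ (k + 2) * (∫⁻ x in G j, f x * mult T x) ^ (k + 2) := mul_pow _ _ _
      _ ≤ _ := by
          gcongr
          exact hone j
  refine hsum.trans ?_
  rw [hZ, ← mul_assoc, ← ENNReal.ofReal_natCast, ← ENNReal.ofReal_pow (Nat.cast_nonneg _),
    ← ENNReal.ofReal_mul (by positivity)]
  refine mul_le_mul' (ENNReal.ofReal_le_ofReal ?_) le_rfl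
  have hNcount : N ≤ K0 * (1 / δ) ^ (n - 1) := by
    obtain ⟨i0⟩ : Nonempty ι := Fintype.card_pos_iff.1 h0
    have h1 := hcount δ hδ hδ1 e he hsep (e i0) (he i0) Finset.univ 1 hδ1.le
      (fun j _ => sn_le_one _ _)
    rwa [Finset.card_univ] at h1
  have hJX : (2 : ℝ) ^ J ≤ 2 * K0 * (1 / δ) ^ (n - 1) := by
    rw [hJ, pow_succ]
    linarith
  have hJlog := hlog J (2 * K0 * (1 / δ) ^ (n - 1)) (by positivity) hJX
  have hpow : (((1 / δ) ^ (n - 1)) ^ η) ^ (k + 2) = δ ^ (-(ε / 2)) := by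
    rw [← Real.rpow_natCast (1 / δ) (n - 1), ← Real.rpow_natCast _ (k + 2),
      ← Real.rpow_mul (by positivity), ← Real.rpow_mul (by positivity), one_div,
      Real.inv_rpow hδ.le, ← Real.rpow_neg hδ.le]
    congr 1
    push_cast [Nat.cast_sub hn1]
    rw [hη]
    field_simp
  have hJk : (J : ℝ) ^ (k + 2) ≤ Cη ^ (k + 2) * ((2 * K0) ^ η) ^ (k + 2) * δ ^ (-(ε / 2)) := by
    calc (J : ℝ) ^ (k + 2) ≤ (Cη * (2 * K0 * (1 / δ) ^ (n - 1)) ^ η) ^ (k + 2) := by gcongr
      _ = Cη ^ (k + 2) * ((2 * K0) ^ η) ^ (k + 2) * (((1 / δ) ^ (n - 1)) ^ η) ^ (k + 2) := by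
          rw [Real.mul_rpow (by positivity) (by positivity), mul_pow, mul_pow]
          ring
      _ = _ := by rw [hpow]
  have hexp : δ ^ (-(ε / 2)) * δ ^ (-(ε / 2)) = δ ^ (-ε) := by
    rw [← Real.rpow_add hδ]
    congr 1
    ring
  calc (J : ℝ) ^ (k + 2) * (2 ^ (k + 2) * (C * A₀ * δ ^ (-(ε / 2)) * M ^ (k + 1)))
      ≤ (Cη ^ (k + 2) * ((2 * K0) ^ η) ^ (k + 2) * δ ^ (-(ε / 2))) *
        (2 ^ (k + 2) * (C * A₀ * δ ^ (-(ε / 2)) * M ^ (k + 1))) := by gcongr
    _ = D * A₀ * (δ ^ (-(ε / 2)) * δ ^ (-(ε / 2))) * M ^ (k + 1) := by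
        rw [hD]
        ring
    _ = D * A₀ * δ ^ (-ε) * M ^ (k + 1) := by rw [hexp]
    _ ≤ (1 + D) * A₀ * δ ^ (-ε) * M ^ (k + 1) := by
        gcongr
        linarith

end Pool.Agent.H74.TD
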