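import Pool.Graph.R_seed8.Y254.Trans
import Pool.Agent.H74.TD.Brush

/-!
The pair inequality for one piece of a tube, in a set of quadratic growth.
-/

set_option autoImplicit false

open MeasureTheory Set Metric
open scoped ENNReal NNReal

namespace Pool.Agent.H74.TD
open Pool.Agent.Y254
open Pool.Agent.TH705.RR (E vb vb_pos Rod sn sn_sq sn_nonneg sn_le_one)

variable {n : ℕ}

/-- Quadratic growth in rods. -/
theorem rod_growth {F : Set (E n)} {δ c : ℝ} (hδ : 0 < δ) (hc : 0 ≤ c)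
    (hF : ∀ (x : E n) (r : ℝ), δ ≤ r → r ≤ 32 → volume (F ∩ closedBall x r) ≤ ENNReal.ofReal (c * r ^ 2))
    (a e : E n) (he : ‖e‖ = 1) {L ρ : ℝ} (hL : 0 ≤ L) (hρ : δ ≤ ρ) (hρ2 : ρ ≤ 16) :
    ∃ U : Set (E n), MeasurableSet U ∧ Rod a e L ρ ⊆ U ∧
      volume (F ∩ U) ≤ ENNReal.ofReal (c * (8 * L * ρ + 12 * ρ ^ 2)) := by
  have hρ0 : 0 < ρ := by linarith
  set K : ℕ := ⌈L / ρ⌉₊ with hK
  have hKr : (K : ℝ) < L / ρ + 1 := Nat.ceil_lt_add_one (by positivity)
  refine ⟨⋃ k ∈ Finset.Icc (-(K : ℤ)) K, closedBall (a + (k * ρ : ℝ) • e) (2 * ρ), ?_, ?_, ?_⟩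
  · exact Finset.measurableSet_biUnion _ fun k _ => measurableSet_closedBall
  · rintro x ⟨t, ht, hx⟩
    have hfl := Int.floor_le (t / ρ)
    have hfl2 := Int.lt_floor_add_one (t / ρ)
    set k : ℤ := ⌊t / ρ⌋ with hk
    have h1 : |t - k * ρ| ≤ ρ := by
      rw [abs_le]
      have e1 : t = t / ρ * ρ := by field_simp
      constructor
      · nlinarith
      · nlinarith
    have hk1 : k ≤ K := by
      have h2 : (k : ℝ) ≤ K := by
        have h3 : t / ρ ≤ L / ρ := by
          gcongr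
          exact (le_abs_self t).trans ht
        have h4 : L / ρ ≤ K := Nat.le_ceil _
        linarith
      exact_mod_cast h2
    have hk2 : -(K : ℤ) ≤ k := by
      have h4 : L / ρ ≤ K := Nat.le_ceil _
      have h3 : -(L / ρ) ≤ t / ρ := by
        rw [← neg_div]
        gcongr
        linarith [neg_abs_le t]
      have h5 : (-(K : ℤ) : ℝ) ≤ t / ρ := by
        push_cast
        linarith
      rw [hk, Int.le_floor]
      push_cast
      push_cast at h5
      exact h5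
    refine mem_iUnion₂.2 ⟨k, Finset.mem_Icc.2 ⟨hk2, hk1⟩, ?_⟩
    rw [mem_closedBall, dist_eq_norm]
    have h6 : x - (a + (k * ρ : ℝ) • e) = (x - a - t • e) + (t - k * ρ) • e := by
      rw [sub_smul]
      abel
    rw [h6]
    refine (norm_add_le _ _).trans ?_
    rw [norm_smul, he, mul_one, Real.norm_eq_abs]
    linarith
  · have hsub : F ∩ (⋃ k ∈ Finset.Icc (-(K : ℤ)) K, closedBall (a + (k * ρ : ℝ) • e) (2 * ρ)) ⊆
        ⋃ k ∈ Finset.Icc (-(K : ℤ)) K, F ∩ closedBall (a + (k * ρ : ℝ) • e) (2 * ρ) := by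
      rintro x ⟨hxF, hx⟩
      obtain ⟨k, hk, hxk⟩ := mem_iUnion₂.1 hx
      exact mem_iUnion₂.2 ⟨k, hk, hxF, hxk⟩
    calc volume (F ∩ (⋃ k ∈ Finset.Icc (-(K : ℤ)) K, closedBall (a + (k * ρ : ℝ) • e) (2 * ρ)))
        ≤ ∑ k ∈ Finset.Icc (-(K : ℤ)) K, volume (F ∩ closedBall (a + (k * ρ : ℝ) • e) (2 * ρ)) :=
          (measure_mono hsub).trans (measure_biUnion_finset_le _ _)
      _ ≤ ∑ _k ∈ Finset.Icc (-(K : ℤ)) K, ENNReal.ofReal (c * (2 * ρ) ^ 2) :=
          Finset.sum_le_sum fun k _ => hF _ _ (by linarith) (by linarith)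
      _ = ENNReal.ofReal ((2 * K + 1 : ℕ) * (c * (2 * ρ) ^ 2)) := by
          rw [Finset.sum_const, Int.card_Icc, nsmul_eq_mul,
            ENNReal.ofReal_mul (p := ((2 * K + 1 : ℕ) : ℝ)) (Nat.cast_nonneg _),
            ENNReal.ofReal_natCast]
          congr 2
          omega
      _ ≤ _ := by
          apply ENNReal.ofReal_le_ofReal
          push_cast
          have h7 : (2 * (K : ℝ) + 1) ≤ 2 * (L / ρ) + 3 := by linarith
          calc (2 * (K : ℝ) + 1) * (c * (2 * ρ) ^ 2)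
              ≤ (2 * (L / ρ) + 3) * (c * (2 * ρ) ^ 2) := by gcongr
            _ = _ := by
                field_simp
                ring

/-- The second points of pairs are in a rod. -/
theorem mem_rod {δ r θ t p : ℝ} {a a' e e' x y : E n}
    (hx : x ∈ tube δ a e) (hx' : x ∈ tube δ a' e') (hy : y ∈ tube δ a' e') (he' : ‖e'‖ = 1)
    (ht : t = inner ℝ (x - a) e) (htp : |t - p| ≤ r) (hxy : ‖y - x‖ ≤ r)
    (hθ : ‖e - e'‖ ≤ 2 * θ) (hr : 0 ≤ r) :
    y ∈ Rod (a + p • e) e (2 * r) (3 * δ + 2 * θ * r) := by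
  set s : ℝ := inner ℝ (y - x) e' with hs
  have hs1 : |s| ≤ r := by
    have := abs_real_inner_le_norm (y - x) e'
    rw [he', mul_one] at this
    exact this.trans hxy
  refine ⟨t - p + s, ?_, ?_⟩
  · exact (abs_add_le _ _).trans (by linarith)
  · have h1 : y - (a + p • e) - (t - p + s) • e =
        ((x - a) - (inner ℝ (x - a) e) • e) + ((y - x) - s • e') + s • (e' - e) := by
      rw [← ht, add_smul, sub_smul, smul_sub]
      abel
    rw [h1]
    have h2 := hx.2
    have h3 := tube_diff hx' hy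
    rw [← hs] at h3
    have h4 : ‖s • (e' - e)‖ ≤ r * (2 * θ) := by
      rw [norm_smul, Real.norm_eq_abs, norm_sub_rev]
      gcongr
    calc _ ≤ ‖((x - a) - (inner ℝ (x - a) e) • e) + ((y - x) - s • e')‖ + ‖s • (e' - e)‖ :=
          norm_add_le _ _
      _ ≤ (δ + 2 * δ) + r * (2 * θ) := by
          gcongr
          exact (norm_add_le _ _).trans (add_le_add h2 h3)
      _ = _ := by ring

/-- The annular relation. -/
def far (h : ℝ) : Set (E n × E n) := {p | h ≤ ‖p.2 - p.1‖ ∧ ‖p.2 - p.1‖ ≤ 4 * h}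

theorem far_ms (h : ℝ) : MeasurableSet (far (n := n) h) := by
  have h1 : IsClosed {p : E n × E n | h ≤ ‖p.2 - p.1‖} :=
    isClosed_le continuous_const (by fun_prop)
  have h2 : IsClosed {p : E n × E n | ‖p.2 - p.1‖ ≤ 4 * h} :=
    isClosed_le (by fun_prop) continuous_const
  exact h1.measurableSet.inter h2.measurableSet

/-- The pieces of a tube. -/
def piece (a e : E n) (r : ℝ) (p : ℤ) : Set (E n) := {x | ⌊(inner ℝ (x - a) e : ℝ) / r⌋ = p}

theorem piece_ms (a e : E n) (r : ℝ) (p : ℤ) : MeasurableSet (piece a e r p) := by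
  have h : Measurable fun x : E n => ⌊(inner ℝ (x - a) e : ℝ) / r⌋ :=
    Int.measurable_floor.comp (by fun_prop)
  exact h (measurableSet_singleton p)

theorem piece_near {a e x : E n} {r : ℝ} (hr : 0 < r) {p : ℤ} (hx : x ∈ piece a e r p) :
    |(inner ℝ (x - a) e : ℝ) - p * r| ≤ r := by
  have hp : ⌊(inner ℝ (x - a) e : ℝ) / r⌋ = p := hx
  have h1 := Int.floor_le ((inner ℝ (x - a) e : ℝ) / r)
  have h2 := Int.lt_floor_add_one ((inner ℝ (x - a) e : ℝ) / r)
  rw [hp, le_div_iff₀ hr] at h1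
  rw [hp, div_lt_iff₀ hr] at h2
  rw [abs_le]
  constructor <;> linarith

/-- The volume of a piece. -/
theorem vol_piece (hn : 1 ≤ n) {a e : E n} (he : ‖e‖ = 1) {δ r : ℝ} (hδ : 0 < δ) (hr : δ ≤ r)
    (p : ℤ) : volume (tube δ a e ∩ piece a e r p) ≤ ENNReal.ofReal (Cv n * (4 * r) * δ ^ (n - 1)) := by
  have hr0 : 0 < r := by linarith
  rcases Set.eq_empty_or_nonempty (tube δ a e ∩ piece a e r p) with h0 | ⟨x0, hx0, hx0p⟩
  · rw [h0]; simp
  refine (measure_mono ?_).trans (vol_near hn (a := a) he hδ (r := 4 * r) (by positivity) x0)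
  rintro x ⟨hx, hxp⟩
  refine ⟨hx, ?_⟩
  have h1 := piece_near hr0 hxp
  have h2 := piece_near hr0 hx0p
  have h3 := tube_diff hx0 hx
  have h4 : (inner ℝ (x - x0) e : ℝ) = inner ℝ (x - a) e - inner ℝ (x0 - a) e := by
    rw [← inner_sub_left]
    congr 1
    abel
  have h5 : |(inner ℝ (x - x0) e : ℝ)| ≤ 2 * r := by
    rw [h4]
    have : (inner ℝ (x - a) e : ℝ) - inner ℝ (x0 - a) e =
      (inner ℝ (x - a) e - p * r) - (inner ℝ (x0 - a) e - p * r) := by ring
    rw [this]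
    exact (abs_sub _ _).trans (by linarith)
  have h6 : x - x0 = ((x - x0) - (inner ℝ (x - x0) e : ℝ) • e) + (inner ℝ (x - x0) e : ℝ) • e := by
    abel
  rw [h6]
  refine (norm_add_le _ _).trans ?_
  rw [norm_smul, he, mul_one, Real.norm_eq_abs]
  linarith

end Pool.Agent.H74.TD
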