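import Pool.Agent.H74.TD.Upper

/-!
The bound for one level of the multiplicity.
-/

set_option autoImplicit false

open MeasureTheory Set Metric
open scoped ENNReal NNReal

namespace Pool.Agent.H74.TD
open Pool.Agent.Y254
open Pool.Agent.TH705.RR (E vb vb_pos Rod sn sn_sq sn_nonneg sn_le_one)

variable {n : ℕ}

/-- The algebra. -/
theorem level_alg {μ S N w Cr Q2 g U K L C X : ℝ} (hμ : 4 ≤ μ) (hS : 0 < S) (hN : 0 < N)
    (hw : w = S / (4 * N)) (hK : 0 ≤ K) (hL : 0 ≤ L) (hC : 0 ≤ C) (hX : 0 ≤ X) (hQ2 : 0 ≤ Q2)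
    (h1 : w * Q2 ≤ w * Cr + 4 * K * U) (h2 : Cr ^ 2 ≤ g * Q2) (h3 : μ * g ≤ S)
    (h4 : 3 / 4 * S ≤ Cr) (h5 : U ≤ 6 * K ^ 2 * L * Real.sqrt (N * (C * (X * μ) * S))) :
    μ * S ^ 3 ≤ 65536 * C * (K ^ 6 * L ^ 2) * X * N ^ 3 := by
  have hw0 : 0 < w := by rw [hw]; positivity
  have hμ0 : 0 < μ := by linarith
  have hCr : 0 < Cr := by nlinarith
  have a1 : μ * Cr ^ 2 ≤ S * Q2 := by
    calc μ * Cr ^ 2 ≤ μ * (g * Q2) := by gcongr
      _ = (μ * g) * Q2 := by ring
      _ ≤ S * Q2 := by gcongr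
  have a2 : w * (μ * Cr ^ 2) ≤ S * (w * Cr + 4 * K * U) := by
    calc w * (μ * Cr ^ 2) ≤ w * (S * Q2) := by gcongr
      _ = S * (w * Q2) := by ring
      _ ≤ _ := by gcongr
  have a3 : w * (μ * (3 / 4 * S * Cr)) ≤ w * (μ * Cr ^ 2) := by
    gcongr
    nlinarith
  have a4 : w * Cr * (3 / 4 * μ - 1) ≤ 4 * K * U := by
    have : S * (w * Cr * (3 / 4 * μ - 1)) ≤ S * (4 * K * U) := by nlinarith
    exact le_of_mul_le_mul_left this hS
  have a5 : w * (3 / 4 * S) * (μ / 2) ≤ 4 * K * U := by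
    refine le_trans ?_ a4
    have b1 : μ / 2 ≤ 3 / 4 * μ - 1 := by linarith
    have b2 : w * (3 / 4 * S) ≤ w * Cr := by gcongr
    have b3 : 0 ≤ w * (3 / 4 * S) := by positivity
    exact mul_le_mul b2 b1 (by positivity) (by positivity)
  have a6 : μ * S ^ 2 ≤ 256 * N * K ^ 3 * L * Real.sqrt (N * (C * (X * μ) * S)) := by
    have b1 : w * (3 / 4 * S) * (μ / 2) = 3 / 32 * (μ * S ^ 2) / N := by
      rw [hw]
      field_simp
      ring
    rw [b1, div_le_iff₀ hN] at a5
    have b2 : 4 * K * U * N ≤ 4 * K * (6 * K ^ 2 * L * Real.sqrt (N * (C * (X * μ) * S))) * N := by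
      gcongr
    have b3 : 0 ≤ Real.sqrt (N * (C * (X * μ) * S)) := Real.sqrt_nonneg _
    have b4 : 0 ≤ N * K ^ 3 * L * Real.sqrt (N * (C * (X * μ) * S)) := by positivity
    nlinarith
  have a7 : (μ * S ^ 2) ^ 2 ≤ (256 * N * K ^ 3 * L) ^ 2 * (N * (C * (X * μ) * S)) := by
    calc (μ * S ^ 2) ^ 2 ≤ (256 * N * K ^ 3 * L * Real.sqrt (N * (C * (X * μ) * S))) ^ 2 := by
          gcongr
      _ = _ := by
          rw [mul_pow _ (Real.sqrt _), Real.sq_sqrt (by positivity)]
  have a8 : (μ * S) * (μ * S ^ 3) ≤ (μ * S) * (65536 * C * (K ^ 6 * L ^ 2) * X * N ^ 3) := by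
    calc (μ * S) * (μ * S ^ 3) = (μ * S ^ 2) ^ 2 := by ring
      _ ≤ _ := a7
      _ = _ := by ring
  exact le_of_mul_le_mul_left a8 (by positivity)

/-- The bound for one level of the multiplicity. -/
theorem level1 (hn : 3 ≤ n) {ε C : ℝ} (hC : 0 < C) (hPB : PB n ε C) {δ : ℝ}
    (hδ : 0 < δ) (hδ1 : δ < 1) {ι : Type} [Fintype ι]
    (a e : ι → E n) (he : ∀ i, ‖e i‖ = 1) (hsep : ∀ i j, i ≠ j → δ ≤ ‖e i - e j‖)
    (hpair : ∀ i j, ‖e i - e j‖ ≤ 1) {F G : Set (E n)} (hG : MeasurableSet G) (hGF : G ⊆ F)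
    {c : ℝ} (hc : 0 ≤ c)
    (hF : ∀ (x : E n) (r : ℝ), δ ≤ r → r ≤ 32 → volume (F ∩ closedBall x r) ≤ ENNReal.ofReal (c * r ^ 2))
    {μ : ℝ} (hμ : 4 ≤ μ) (hmul : ∀ x ∈ G, mult (fun i => tube δ (a i) (e i)) x ≤ ENNReal.ofReal (2 * μ))
    (hmul2 : ∀ x ∈ G, ENNReal.ofReal μ ≤ mult (fun i => tube δ (a i) (e i)) x)
    {K L : ℕ} (hK1 : 1 ≤ K) (hKδ : δ ≤ 4 * (1 / 2) ^ K) (hL : 1 < 2 ^ L * δ) {S : ℝ} (hS0 : 0 < S)
    (hS : ∫⁻ x in G, mult (fun i => tube δ (a i) (e i)) x = ENNReal.ofReal S)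
    (hSK : 16 * Cv n * (Fintype.card ι : ℝ) * (1 / 2) ^ K * δ ^ (n - 1) ≤ S) :
    μ * S ^ 3 ≤ 65536 * C * ((K : ℝ) ^ 6 * (L : ℝ) ^ 2) *
      (c * δ ^ n * δ ^ (n - 1) * ((((1 / 2) ^ K) ^ (n - 4))⁻¹) * δ ^ (-ε)) *
      (Fintype.card ι : ℝ) ^ 3 := by
  classical
  have hμ0 : 0 < μ := by linarith
  have hCv := Cv_pos n
  have hn1 : 1 ≤ n := by omega
  set N : ℝ := (Fintype.card ι : ℝ) with hN
  set T : ι → Set (E n) := fun i => tube δ (a i) (e i) with hT
  have hTm : ∀ i, MeasurableSet (T i) := fun i => tube_meas _ _ _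
  set A : ι → Set (E n) := fun i => T i ∩ G with hA
  have hAm : ∀ i, MeasurableSet (A i) := fun i => (hTm i).inter hG
  have hfin : ∀ i, volume (A i) ≠ ∞ := fun i => ne_top_of_le_ne_top ENNReal.ofReal_ne_top
    ((measure_mono (inter_subset_left : A i ⊆ T i)).trans (vol_tube hn1 (he i) hδ hδ1))
  set v : ι → ℝ := fun i => (volume (A i)).toReal with hv
  have hv0 : ∀ i, 0 ≤ v i := fun i => ENNReal.toReal_nonneg
  have hve : ∀ i, volume (A i) = ENNReal.ofReal (v i) := fun i =>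
    (ENNReal.ofReal_toReal (hfin i)).symm
  have hmA : ∀ x ∈ G, mult A x = mult T x := by
    intro x hx
    unfold mult
    refine Finset.sum_congr rfl fun i _ => ?_
    by_cases h1 : x ∈ T i
    · rw [indicator_of_mem h1, indicator_of_mem (show x ∈ A i from ⟨h1, hx⟩)]
    · rw [indicator_of_notMem h1, indicator_of_notMem (show x ∉ A i from fun hh => h1 hh.1)]
  have hmA0 : ∀ x, x ∉ G → mult A x = 0 := by
    intro x hx
    unfold mult
    exact Finset.sum_eq_zero fun i _ => indicator_of_notMem (fun hh => hx hh.2) _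
  have hint : ∫⁻ x, mult A x = ENNReal.ofReal S := by
    rw [← hS, ← lintegral_indicator hG]
    apply lintegral_congr
    intro x
    by_cases hx : x ∈ G
    · rw [indicator_of_mem hx, hmA x hx]
    · rw [indicator_of_notMem hx, hmA0 x hx]
  have hvS : ∑ i, v i = S := by
    have h1 : ENNReal.ofReal (∑ i, v i) = ENNReal.ofReal S := by
      rw [ENNReal.ofReal_sum_of_nonneg fun i _ => hv0 i, ← hint, lint_mult volume hAm]
      exact Finset.sum_congr rfl fun i _ => (hve i).symm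
    have h2 := congrArg ENNReal.toReal h1
    rwa [ENNReal.toReal_ofReal (Finset.sum_nonneg fun i _ => hv0 i),
      ENNReal.toReal_ofReal hS0.le] at h2
  have hN0 : 0 < N := by
    rcases Nat.eq_zero_or_pos (Fintype.card ι) with h0 | h0
    · have : IsEmpty ι := Fintype.card_eq_zero_iff.1 h0
      rw [Finset.univ_eq_empty, Finset.sum_empty] at hvS
      linarith
    · rw [hN]
      exact_mod_cast h0
  set w : ℝ := S / (4 * N) with hw
  have hw0 : 0 < w := by positivity
  have hwK : 2 * (Cv n * (2 * (1 / 2) ^ K) * δ ^ (n - 1)) ≤ w := by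
    rw [hw, le_div_iff₀ (by positivity)]
    calc 2 * (Cv n * (2 * (1 / 2) ^ K) * δ ^ (n - 1)) * (4 * N)
        = 16 * Cv n * N * (1 / 2) ^ K * δ ^ (n - 1) := by ring
      _ ≤ S := hSK
  set R : Finset ι := Finset.univ.filter (fun i => w ≤ v i) with hR
  set Bd : ℝ := C * (c * δ ^ n * δ ^ (n - 1) * ((((1 / 2) ^ K) ^ (n - 4))⁻¹) * δ ^ (-ε) * μ) with hBd
  have hBd0 : 0 ≤ Bd := by positivity
  set u : E n → ℝ≥0∞ := fun x => ∑ i ∈ R, ∑ j ∈ R.erase i, sd (A i) (A j) (a i) (e i) K x with hu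
  set cnt : E n → ℝ≥0∞ := fun x => ∑ i ∈ R, if x ∈ A i then 1 else 0 with hcnt
  have hcnt' : ∀ x, cnt x = ∑ i ∈ R, (A i).indicator 1 x := by
    intro x
    refine Finset.sum_congr rfl fun i _ => ?_
    by_cases h : x ∈ A i
    · rw [if_pos h, indicator_of_mem h]; rfl
    · rw [if_neg h, indicator_of_notMem h]
  have hcm : Measurable cnt := by
    have : cnt = fun x => ∑ i ∈ R, (A i).indicator 1 x := funext hcnt'
    rw [this]
    exact Finset.measurable_sum _ fun i _ => measurable_one.indicator (hAm i)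
  have hum : Measurable u := Finset.measurable_sum _ fun i _ => Finset.measurable_sum _ fun j _ =>
    sd_meas (hAm i) (hAm j) _ _ _
  -- the pointwise bound
  have hpt : ∀ x, ENNReal.ofReal w * cnt x ^ 2 ≤ ENNReal.ofReal w * cnt x +
      2 * (2 * K : ℕ) * u x := by
    intro x
    refine point_lower R (fun i => x ∈ A i) (fun i j => sd (A i) (A j) (a i) (e i) K x) ?_
    intro i hi j hj hij hxi hxj
    have hwi : ENNReal.ofReal w ≤ volume (A i) := by
      rw [hve]
      exact ENNReal.ofReal_le_ofReal (Finset.mem_filter.1 hi).2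
    have hwj : ENNReal.ofReal w ≤ volume (A j) := by
      rw [hve]
      exact ENNReal.ofReal_le_ofReal (Finset.mem_filter.1 hj).2
    exact sd_pair hn1 (he i) (he j) hδ hδ1 (hAm i) (hAm j) inter_subset_left inter_subset_left hK1
      (ENNReal.ofReal_le_ofReal hwK) hwi hwj hxi hxj
  have hI1 : ENNReal.ofReal w * ∫⁻ x, cnt x ^ 2 ≤ ENNReal.ofReal w * (∫⁻ x, cnt x) +
      2 * (2 * K : ℕ) * ∫⁻ x, u x := by
    rw [← lintegral_const_mul _ (hcm.pow_const 2), ← lintegral_const_mul _ hcm,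
      ← lintegral_const_mul _ hum, ← lintegral_add_left (hcm.const_mul _)]
    exact lintegral_mono hpt
  -- the upper bound
  have hUup : ∫⁻ x, u x ≤ ENNReal.ofReal (6 * K ^ 2 * L * Real.sqrt (N * (Bd * S))) := by
    calc ∫⁻ x, u x = ∑ i ∈ R, ∑ j ∈ R.erase i, ∫⁻ x, sd (A i) (A j) (a i) (e i) K x := by
          rw [hu, lintegral_finsetSum _ fun i _ => Finset.measurable_sum _ fun j _ =>
            sd_meas (hAm i) (hAm j) _ _ _]
          refine Finset.sum_congr rfl fun i _ => ?_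
          rw [lintegral_finsetSum _ fun j _ => sd_meas (hAm i) (hAm j) _ _ _]
      _ ≤ ∑ i ∈ R, ENNReal.ofReal (6 * K ^ 2 * L * Real.sqrt (Bd * v i)) := by
          apply Finset.sum_le_sum
          intro i hi
          refine stem_upper hn hC hPB hδ hδ1 a e he hsep hpair hG hGF hc hF hμ0 hmul hKδ hL i R ?_
          intro h0
          have h1 := (Finset.mem_filter.1 hi).2
          have h2 : v i = 0 := by
            rw [hv]
            simp only
            rw [hA, hT]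
            simp only
            rw [h0]
            simp
          linarith
      _ = ENNReal.ofReal (∑ i ∈ R, 6 * K ^ 2 * L * Real.sqrt (Bd * v i)) := by
          rw [ENNReal.ofReal_sum_of_nonneg fun i _ => by positivity]
      _ ≤ _ := by
          apply ENNReal.ofReal_le_ofReal
          rw [← Finset.mul_sum]
          gcongr
          apply Real.le_sqrt_of_sq_le
          calc (∑ i ∈ R, Real.sqrt (Bd * v i)) ^ 2 ≤ R.card * ∑ i ∈ R, Real.sqrt (Bd * v i) ^ 2 :=
                sq_sum_le_card_mul_sum_sq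
            _ = R.card * ∑ i ∈ R, Bd * v i := by
                congr 1
                refine Finset.sum_congr rfl fun i _ => Real.sq_sqrt ?_
                exact mul_nonneg hBd0 (hv0 i)
            _ ≤ N * ∑ i, Bd * v i := by
                refine mul_le_mul ?_ (Finset.sum_le_sum_of_subset_of_nonneg
                  (Finset.subset_univ _) fun i _ _ => mul_nonneg hBd0 (hv0 i))
                  (Finset.sum_nonneg fun i _ => mul_nonneg hBd0 (hv0 i)) hN0.le
                rw [hN]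
                exact_mod_cast Finset.card_le_univ R
            _ = N * (Bd * S) := by rw [← Finset.mul_sum, hvS]
  -- Cauchy-Schwarz
  have hCS : (∫⁻ x, cnt x) ^ 2 ≤ volume G * ∫⁻ x, cnt x ^ 2 := by
    have h1 := Pool.Agent.Y254.cs_sq (volume : Measure (E n)) (measurable_one.indicator hG) hcm
    have h2 : ∫⁻ x, G.indicator (1 : E n → ℝ≥0∞) x * cnt x = ∫⁻ x, cnt x := by
      apply lintegral_congr
      intro x
      by_cases hx : x ∈ G
      · rw [indicator_of_mem hx]; simp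
      · rw [indicator_of_notMem hx, zero_mul, hcnt' x]
        symm
        exact Finset.sum_eq_zero fun i _ => indicator_of_notMem (fun hh => hx hh.2) _
    have h3 : ∫⁻ x, G.indicator (1 : E n → ℝ≥0∞) x ^ 2 = volume G := by
      rw [← lintegral_indicator_one hG]
      apply lintegral_congr
      intro y
      by_cases hy : y ∈ G
      · rw [indicator_of_mem hy]; simp
      · rw [indicator_of_notMem hy]; simp
    rw [h2, h3] at h1
    exact h1
  have hgμ : ENNReal.ofReal μ * volume G ≤ ENNReal.ofReal S := by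
    rw [← hS, ← setLIntegral_const]
    exact setLIntegral_mono' hG hmul2
  have hcint : ∫⁻ x, cnt x = ENNReal.ofReal (∑ i ∈ R, v i) := by
    rw [lintegral_congr hcnt', lintegral_finsetSum _ fun i _ => measurable_one.indicator (hAm i),
      ENNReal.ofReal_sum_of_nonneg fun i _ => hv0 i]
    refine Finset.sum_congr rfl fun i _ => ?_
    rw [lintegral_indicator_one (hAm i), hve]
  have hcle : ∀ x, cnt x ≤ ENNReal.ofReal N := by
    intro x
    rw [hcnt]
    calc ∑ i ∈ R, (if x ∈ A i then (1 : ℝ≥0∞) else 0) ≤ ∑ _i ∈ R, (1 : ℝ≥0∞) :=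
          Finset.sum_le_sum fun i _ => by split_ifs <;> simp
      _ = (R.card : ℝ≥0∞) := by simp
      _ ≤ ENNReal.ofReal N := by
          rw [hN, ENNReal.ofReal_natCast]
          exact_mod_cast Finset.card_le_univ R
  have hc2fin : ∫⁻ x, cnt x ^ 2 ≠ ∞ := by
    have h1 : ∫⁻ x, cnt x ^ 2 ≤ ENNReal.ofReal N * ∫⁻ x, cnt x := by
      rw [← lintegral_const_mul _ hcm]
      apply lintegral_mono
      intro x
      simp only
      rw [sq]
      gcongr
      exact hcle x
    refine ne_top_of_le_ne_top ?_ h1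
    rw [hcint]
    exact ENNReal.mul_ne_top ENNReal.ofReal_ne_top ENNReal.ofReal_ne_top
  have hGfin : volume G ≠ ∞ := by
    intro h
    rw [h, ENNReal.mul_top (by
      rw [ne_eq, ENNReal.ofReal_eq_zero, not_le]
      exact hμ0)] at hgμ
    exact ENNReal.ofReal_ne_top (top_le_iff.1 hgμ)
  have hUfin : ∫⁻ x, u x ≠ ∞ := ne_top_of_le_ne_top ENNReal.ofReal_ne_top hUup
  -- to the reals
  set Q2 : ℝ := (∫⁻ x, cnt x ^ 2).toReal with hQ2
  set g : ℝ := (volume G).toReal with hg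
  set U : ℝ := (∫⁻ x, u x).toReal with hU
  set Cr : ℝ := ∑ i ∈ R, v i with hCr
  have hQe : ∫⁻ x, cnt x ^ 2 = ENNReal.ofReal Q2 := (ENNReal.ofReal_toReal hc2fin).symm
  have hge : volume G = ENNReal.ofReal g := (ENNReal.ofReal_toReal hGfin).symm
  have hUe : ∫⁻ x, u x = ENNReal.ofReal U := (ENNReal.ofReal_toReal hUfin).symm
  have hQ20 : 0 ≤ Q2 := ENNReal.toReal_nonneg
  have hg0 : 0 ≤ g := ENNReal.toReal_nonneg
  have hU0 : 0 ≤ U := ENNReal.toReal_nonneg
  have hCr0 : 0 ≤ Cr := Finset.sum_nonneg fun i _ => hv0 i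
  have r1 : w * Q2 ≤ w * Cr + 4 * K * U := by
    rw [hQe, hcint, hUe, ← ENNReal.ofReal_mul hw0.le, ← ENNReal.ofReal_mul hw0.le] at hI1
    have e1 : (2 : ℝ≥0∞) * (2 * K : ℕ) * ENNReal.ofReal U = ENNReal.ofReal (4 * K * U) := by
      rw [ENNReal.ofReal_mul (by positivity), ENNReal.ofReal_mul (by norm_num),
        ENNReal.ofReal_natCast]
      push_cast
      rw [ENNReal.ofReal_ofNat]
      ring
    rw [e1, ← ENNReal.ofReal_add (by positivity) (by positivity)] at hI1
    exact (ENNReal.ofReal_le_ofReal_iff (by positivity)).1 hI1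
  have r2 : Cr ^ 2 ≤ g * Q2 := by
    rw [hcint, hge, hQe, ← ENNReal.ofReal_pow hCr0, ← ENNReal.ofReal_mul hg0] at hCS
    exact (ENNReal.ofReal_le_ofReal_iff (by positivity)).1 hCS
  have r3 : μ * g ≤ S := by
    rw [hge, ← ENNReal.ofReal_mul hμ0.le] at hgμ
    exact (ENNReal.ofReal_le_ofReal_iff hS0.le).1 hgμ
  have r4 : 3 / 4 * S ≤ Cr := by
    have h1 : S = Cr + ∑ i ∈ Finset.univ.filter (fun i => ¬ w ≤ v i), v i := by
      rw [← hvS, hCr, hR]
      exact (Finset.sum_filter_add_sum_filter_not _ _ _).symm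
    have h2 : ∑ i ∈ Finset.univ.filter (fun i => ¬ w ≤ v i), v i ≤ N * w := by
      calc ∑ i ∈ Finset.univ.filter (fun i => ¬ w ≤ v i), v i
          ≤ ∑ _i ∈ Finset.univ.filter (fun i => ¬ w ≤ v i), w :=
            Finset.sum_le_sum fun i hi => (not_le.1 (Finset.mem_filter.1 hi).2).le
        _ = (Finset.univ.filter (fun i => ¬ w ≤ v i)).card * w := by
            rw [Finset.sum_const, nsmul_eq_mul]
        _ ≤ N * w := by
            gcongr
            rw [hN]
            exact_mod_cast Finset.card_le_univ _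
    have h3 : N * w = S / 4 := by
      rw [hw]
      field_simp
    linarith
  have r5 : U ≤ 6 * (K : ℝ) ^ 2 * L * Real.sqrt (N * (C * ((c * δ ^ n * δ ^ (n - 1) *
      ((((1 / 2) ^ K) ^ (n - 4))⁻¹) * δ ^ (-ε)) * μ) * S)) := by
    have h1 := hUup
    rw [hUe] at h1
    have h2 := (ENNReal.ofReal_le_ofReal_iff (by positivity)).1 h1
    exact h2
  exact level_alg hμ hS0 hN0 hw (Nat.cast_nonneg K) (Nat.cast_nonneg L) hC.le (by positivity) hQ20 r1 r2
    r3 r4 r5

end Pool.Agent.H74.TD
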