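import Pool.Agent.H74.TD.Scale
import Pool.Agent.H74.TD.Piece

/-!
The lower bound for the number of pairs.
-/

set_option autoImplicit false

open MeasureTheory Set Metric
open scoped ENNReal NNReal

namespace Pool.Agent.H74.TD
open Pool.Agent.Y254
open Pool.Agent.TH705.RR (E vb vb_pos Rod sn sn_sq sn_nonneg sn_le_one)

variable {n : ℕ}

/-- The part of the stem in the good pieces. -/
noncomputable def Yp (A : Set (E n)) (a e : E n) (h : ℝ) (K : ℕ) : Set (E n) :=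
  A ∩ {x | ⌊(inner ℝ (x - a) e : ℝ) / (4 * h)⌋ ∈ goodp A a e h K}

theorem Yp_ms {A : Set (E n)} (hA : MeasurableSet A) (a e : E n) (h : ℝ) (K : ℕ) :
    MeasurableSet (Yp A a e h K) := by
  have h1 : Measurable fun x : E n => ⌊(inner ℝ (x - a) e : ℝ) / (4 * h)⌋ :=
    Int.measurable_floor.comp (by fun_prop)
  refine hA.inter ?_
  exact h1 (Set.to_countable (goodp A a e h K : Set ℤ)).measurableSet

/-- The pair density of a stem `A` and a hair `A'`. -/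
noncomputable def sd (A A' : Set (E n)) (a e : E n) (K : ℕ) (x : E n) : ℝ≥0∞ :=
  ∑ k ∈ Finset.range K, (Yp A a e ((1 / 2) ^ k) K ∩ A').indicator 1 x *
    fm volume A' (far ((1 / 2) ^ k)) x

theorem sd_meas {A A' : Set (E n)} (hA : MeasurableSet A) (hA' : MeasurableSet A') (a e : E n)
    (K : ℕ) : Measurable (sd A A' a e K) := by
  unfold sd
  exact Finset.measurable_sum _ fun k _ =>
    (measurable_one.indicator ((Yp_ms hA a e _ K).inter hA')).mul (fm_meas hA' (far_ms _))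

/-- One of the two densities is large. -/
theorem sd_pair (hn : 1 ≤ n) {a e a' e' : E n} (he : ‖e‖ = 1) (he' : ‖e'‖ = 1) {δ : ℝ}
    (hδ : 0 < δ) (hδ1 : δ < 1) {A A' : Set (E n)} (hA : MeasurableSet A) (hA' : MeasurableSet A')
    (hAT : A ⊆ tube δ a e) (hAT' : A' ⊆ tube δ a' e') {K : ℕ} (hK : 1 ≤ K) {w : ℝ≥0∞}
    (hw : ENNReal.ofReal (2 * (Cv n * (2 * (1 / 2) ^ K) * δ ^ (n - 1))) ≤ w)
    (hwA : w ≤ volume A) (hwA' : w ≤ volume A') {x : E n} (hx : x ∈ A) (hx' : x ∈ A') :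
    w ≤ (2 * K : ℕ) * (sd A A' a e K x + sd A' A a' e' K x) := by
  obtain ⟨k, hk, hk1⟩ := exists_scale hn he hδ hδ1 hA hAT hK (hw.trans hwA) (hAT hx)
  obtain ⟨k', hk', hk1'⟩ := exists_scale hn he' hδ hδ1 hA' hAT' hK (hw.trans hwA') (hAT' hx')
  have key : ∀ (a e : E n) (A A' : Set (E n)), ‖e‖ = 1 → MeasurableSet A → A ⊆ tube δ a e →
      x ∈ A → x ∈ A' → ∀ k k' : ℕ, k' < K → k' ≤ k →
      volume A ≤ (2 * K : ℕ) * fm volume A (far ((1 / 2) ^ k)) x →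
      fm volume A' (far ((1 / 2) ^ k')) x ≤ sd A A' a e K x := by
    intro a e A A' he hA hAT hx hx' k k' hk' hkk' hb
    have hmem : x ∈ Yp A a e ((1 / 2) ^ k') K := by
      refine ⟨hx, ?_⟩
      exact goodp_mem hA he hAT hx (h := (1 / 2) ^ k') (h' := (1 / 2) ^ k) (by positivity)
        (pow_le_pow_of_le_one (by norm_num) (by norm_num) hkk') hb
    unfold sd
    refine le_trans ?_ (Finset.single_le_sum (f := fun k => (Yp A a e ((1 / 2) ^ k) K ∩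
      A').indicator (1 : E n → ℝ≥0∞) x * fm volume A' (far ((1 / 2) ^ k)) x)
      (fun _ _ => zero_le) (Finset.mem_range.2 hk'))
    rw [indicator_of_mem (show x ∈ Yp A a e ((1 / 2) ^ k') K ∩ A' from ⟨hmem, hx'⟩)]
    simp
  rcases le_total k' k with h | h
  · have h1 := key a e A A' he hA hAT hx hx' k k' hk' h hk1
    refine (hwA'.trans hk1').trans (mul_le_mul' le_rfl (h1.trans le_self_add))
  · have h1 := key a' e' A' A he' hA' hAT' hx' hx k' k hk h hk1'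
    refine (hwA.trans hk1).trans (mul_le_mul' le_rfl (h1.trans le_add_self))

/-- The pointwise lower bound. -/
theorem point_lower {ι : Type} [DecidableEq ι] (R : Finset ι) (c : ι → Prop) [DecidablePred c]
    (s : ι → ι → ℝ≥0∞) {w M : ℝ≥0∞}
    (hs : ∀ i ∈ R, ∀ j ∈ R, i ≠ j → c i → c j → w ≤ M * (s i j + s j i)) :
    w * (∑ i ∈ R, if c i then 1 else 0) ^ 2 ≤ w * (∑ i ∈ R, if c i then 1 else 0) +
      2 * M * ∑ i ∈ R, ∑ j ∈ R.erase i, s i j := by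
  set Q : Finset ι := R.filter c with hQ
  have h1 : (∑ i ∈ R, if c i then (1 : ℝ≥0∞) else 0) = (Q.card : ℝ≥0∞) := by
    rw [hQ, Finset.card_filter]
    push_cast
    rfl
  rw [h1]
  have h2 : ((Q.offDiag.card : ℕ) : ℝ≥0∞) * w ≤ ∑ p ∈ Q.offDiag, M * (s p.1 p.2 + s p.2 p.1) := by
    rw [← nsmul_eq_mul, ← Finset.sum_const]
    apply Finset.sum_le_sum
    rintro ⟨i, j⟩ hp
    rw [Finset.mem_offDiag] at hp
    obtain ⟨hi, hj, hij⟩ := hp
    rw [hQ, Finset.mem_filter] at hi hj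
    exact hs i hi.1 j hj.1 hij hi.2 hj.2
  have h3 : ∑ p ∈ Q.offDiag, s p.2 p.1 = ∑ p ∈ Q.offDiag, s p.1 p.2 := by
    refine Finset.sum_nbij' (fun p => (p.2, p.1)) (fun p => (p.2, p.1)) ?_ ?_ ?_ ?_ ?_
    · rintro ⟨i, j⟩ hp
      rw [Finset.mem_offDiag] at hp ⊢
      exact ⟨hp.2.1, hp.1, hp.2.2.symm⟩
    · rintro ⟨i, j⟩ hp
      rw [Finset.mem_offDiag] at hp ⊢
      exact ⟨hp.2.1, hp.1, hp.2.2.symm⟩
    · rintro ⟨i, j⟩ _; rfl
    · rintro ⟨i, j⟩ _; rfl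
    · rintro ⟨i, j⟩ _; rfl
  have h4 : ∑ p ∈ Q.offDiag, s p.1 p.2 ≤ ∑ i ∈ R, ∑ j ∈ R.erase i, s i j := by
    have h5 : ∑ i ∈ R, ∑ j ∈ R.erase i, s i j = ∑ p ∈ R.offDiag, s p.1 p.2 := by
      rw [Finset.sum_sigma' R (fun i => R.erase i) (fun i j => s i j)]
      refine Finset.sum_nbij' (fun p => (p.1, p.2)) (fun p => ⟨p.1, p.2⟩) ?_ ?_ ?_ ?_ ?_
      · rintro ⟨i, j⟩ hp
        rw [Finset.mem_sigma] at hp
        rw [Finset.mem_offDiag]
        have h6 := Finset.mem_erase.1 hp.2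
        exact ⟨hp.1, h6.2, h6.1.symm⟩
      · rintro ⟨i, j⟩ hp
        rw [Finset.mem_offDiag] at hp
        rw [Finset.mem_sigma]
        exact ⟨hp.1, Finset.mem_erase.2 ⟨hp.2.2.symm, hp.2.1⟩⟩
      · rintro ⟨i, j⟩ _; rfl
      · rintro ⟨i, j⟩ _; rfl
      · rintro ⟨i, j⟩ _; rfl
    rw [h5]
    apply Finset.sum_le_sum_of_subset
    intro p hp
    rw [Finset.mem_offDiag] at hp ⊢
    exact ⟨(Finset.mem_filter.1 hp.1).1, (Finset.mem_filter.1 hp.2.1).1, hp.2.2⟩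
  have h6 : ((Q.card : ℝ≥0∞)) ^ 2 = Q.offDiag.card + Q.card := by
    rw [Finset.offDiag_card]
    have : Q.card ≤ Q.card * Q.card := Nat.le_mul_self _
    have h7 : Q.card ^ 2 = (Q.card * Q.card - Q.card) + Q.card := by
      rw [Nat.sub_add_cancel this, sq]
    exact_mod_cast h7
  rw [h6, mul_add, add_comm, mul_comm w (Q.offDiag.card : ℝ≥0∞)]
  refine add_le_add le_rfl (h2.trans ?_)
  rw [← Finset.mul_sum, Finset.sum_add_distrib, h3, ← two_mul]
  calc M * (2 * ∑ p ∈ Q.offDiag, s p.1 p.2) = 2 * M * ∑ p ∈ Q.offDiag, s p.1 p.2 := by ring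
    _ ≤ _ := by gcongr

end Pool.Agent.H74.TD
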