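import Pool.Agent.H74.TD.Geo

/-!
Scales and good pieces.
-/

set_option autoImplicit false

open MeasureTheory Set Metric
open scoped ENNReal NNReal

namespace Pool.Agent.H74.TD
open Pool.Agent.Y254
open Pool.Agent.TH705.RR (E vb vb_pos Rod sn sn_sq sn_nonneg sn_le_one)

variable {n : ℕ}

theorem fm_eq {A : Set (E n)} (hA : MeasurableSet A) (h : ℝ) (x : E n) :
    fm volume A (far h) x = volume {y | y ∈ A ∧ (x, y) ∈ far (n := n) h} := by
  have hms : MeasurableSet {y | y ∈ A ∧ (x, y) ∈ far (n := n) h} :=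
    hA.inter (measurable_prodMk_left (far_ms h))
  unfold fm
  rw [← lintegral_indicator_one hms]
  apply lintegral_congr
  intro y
  by_cases h1 : y ∈ A
  · by_cases h' : (x, y) ∈ far (n := n) h
    · rw [indicator_of_mem (show y ∈ {y | y ∈ A ∧ (x, y) ∈ far (n := n) h} from ⟨h1, h'⟩),
        indicator_of_mem h1, indicator_of_mem h']
      simp
    · rw [indicator_of_notMem (show y ∉ {y | y ∈ A ∧ (x, y) ∈ far (n := n) h} from
        fun hh => h' hh.2), indicator_of_notMem h']
      simp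
  · rw [indicator_of_notMem (show y ∉ {y | y ∈ A ∧ (x, y) ∈ far (n := n) h} from
      fun hh => h1 hh.1), indicator_of_notMem h1]
    simp

theorem tube_diam {a e x y : E n} (he : ‖e‖ = 1) {δ : ℝ} (hδ1 : δ < 1)
    (hx : x ∈ tube δ a e) (hy : y ∈ tube δ a e) : ‖y - x‖ ≤ 4 := by
  have h3 := tube_diff hx hy
  have h4 : (inner ℝ (y - x) e : ℝ) = inner ℝ (y - a) e - inner ℝ (x - a) e := by
    rw [← inner_sub_left]
    congr 1
    abel
  have h5 : |(inner ℝ (y - x) e : ℝ)| ≤ 1 := by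
    rw [h4]
    have h1 := hx.1
    have h2 := hy.1
    exact (abs_sub _ _).trans (by linarith)
  have h6 : y - x = ((y - x) - (inner ℝ (y - x) e : ℝ) • e) + (inner ℝ (y - x) e : ℝ) • e := by
    abel
  rw [h6]
  refine (norm_add_le _ _).trans ?_
  rw [norm_smul, he, mul_one, Real.norm_eq_abs]
  linarith

/-- There is a scale with many second points. -/
theorem exists_scale (hn : 1 ≤ n) {a e : E n} (he : ‖e‖ = 1) {δ : ℝ} (hδ : 0 < δ) (hδ1 : δ < 1)
    {A : Set (E n)} (hA : MeasurableSet A) (hAT : A ⊆ tube δ a e) {K : ℕ} (hK : 1 ≤ K)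
    (hbig : ENNReal.ofReal (2 * (Cv n * (2 * (1 / 2) ^ K) * δ ^ (n - 1))) ≤ volume A)
    {x : E n} (hx : x ∈ tube δ a e) :
    ∃ k < K, volume A ≤ (2 * K : ℕ) * fm volume A (far ((1 / 2) ^ k)) x := by
  classical
  have hAfin : volume A ≠ ∞ :=
    ne_top_of_le_ne_top ENNReal.ofReal_ne_top ((measure_mono hAT).trans (vol_tube hn he hδ hδ1))
  have hcov : A ⊆ (⋃ k ∈ Finset.range K, {y | y ∈ A ∧ (x, y) ∈ far (n := n) ((1 / 2) ^ k)}) ∪
      {y | y ∈ tube δ a e ∧ ‖y - x‖ ≤ 2 * (1 / 2) ^ K} := by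
    intro y hy
    have h4 := tube_diam he hδ1 hx (hAT hy)
    by_cases hnear : ‖y - x‖ ≤ 2 * (1 / 2) ^ K
    · exact Or.inr ⟨hAT hy, hnear⟩
    · left
      rw [not_le] at hnear
      have hex : ∃ k : ℕ, (1 / 2 : ℝ) ^ k ≤ ‖y - x‖ := by
        refine ⟨K - 1, ?_⟩
        have : (2 : ℝ) * (1 / 2) ^ K = (1 / 2) ^ (K - 1) := by
          obtain ⟨m, rfl⟩ : ∃ m, K = m + 1 := ⟨K - 1, by omega⟩
          rw [Nat.add_sub_cancel, pow_succ]
          ring
        rw [← this]
        exact hnear.le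
      have hfind := Nat.find_spec hex
      have hle : Nat.find hex ≤ K - 1 := by
        apply Nat.find_min'
        have : (2 : ℝ) * (1 / 2) ^ K = (1 / 2) ^ (K - 1) := by
          obtain ⟨m, rfl⟩ : ∃ m, K = m + 1 := ⟨K - 1, by omega⟩
          rw [Nat.add_sub_cancel, pow_succ]
          ring
        rw [← this]
        exact hnear.le
      refine mem_iUnion₂.2 ⟨Nat.find hex, Finset.mem_range.2 (by omega), hy, hfind, ?_⟩
      rcases Nat.eq_zero_or_pos (Nat.find hex) with h0 | h0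
      · rw [h0]
        simpa using h4
      · have h5 := Nat.find_min hex (m := Nat.find hex - 1) (by omega)
        rw [not_le] at h5
        have h6 : (1 / 2 : ℝ) ^ (Nat.find hex - 1) = 2 * (1 / 2) ^ (Nat.find hex) := by
          obtain ⟨m, hm⟩ : ∃ m, Nat.find hex = m + 1 := ⟨Nat.find hex - 1, by omega⟩
          rw [hm, Nat.add_sub_cancel, pow_succ]
          ring
        rw [h6] at h5
        have h7 : (0 : ℝ) < (1 / 2) ^ (Nat.find hex) := by positivity
        simp only
        linarith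
  have h1 : volume A ≤ (∑ k ∈ Finset.range K, fm volume A (far ((1 / 2) ^ k)) x) +
      ENNReal.ofReal (Cv n * (2 * (1 / 2) ^ K) * δ ^ (n - 1)) := by
    refine (measure_mono hcov).trans ((measure_union_le _ _).trans (add_le_add ?_ ?_))
    · refine (measure_biUnion_finset_le _ _).trans (Finset.sum_le_sum fun k _ => ?_)
      rw [fm_eq hA]
    · exact vol_near hn he hδ (by positivity) x
  have hCv := Cv_pos n
  have h2 : volume A ≤ 2 * ∑ k ∈ Finset.range K, fm volume A (far ((1 / 2) ^ k)) x := by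
    set W := ∑ k ∈ Finset.range K, fm volume A (far ((1 / 2) ^ k)) x with hW
    set κ := ENNReal.ofReal (Cv n * (2 * (1 / 2) ^ K) * δ ^ (n - 1)) with hκ
    have hκ2 : 2 * κ ≤ volume A := by
      refine le_trans (le_of_eq ?_) hbig
      rw [ENNReal.ofReal_mul (by norm_num), ENNReal.ofReal_ofNat]
    have h3 : volume A + volume A ≤ 2 * W + volume A := by
      calc volume A + volume A ≤ (W + κ) + (W + κ) := add_le_add h1 h1
        _ = 2 * W + 2 * κ := by ring
        _ ≤ _ := by gcongr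
    exact (ENNReal.add_le_add_iff_right hAfin).1 h3
  obtain ⟨k, hk, hmax⟩ := Finset.exists_max_image (Finset.range K)
    (fun k => fm volume A (far ((1 / 2) ^ k)) x) ⟨0, Finset.mem_range.2 (by omega)⟩
  refine ⟨k, Finset.mem_range.1 hk, h2.trans ?_⟩
  push_cast
  rw [mul_assoc]
  gcongr
  refine (Finset.sum_le_card_nsmul _ _ _ hmax).trans ?_
  rw [Finset.card_range, nsmul_eq_mul]

/-- Three neighbouring pieces. -/
def piece3 (a e : E n) (r : ℝ) (p : ℤ) : Set (E n) :=
  piece a e r (p - 1) ∪ piece a e r p ∪ piece a e r (p + 1)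

open Classical in
/-- The good pieces. -/
noncomputable def goodp (A : Set (E n)) (a e : E n) (h : ℝ) (K : ℕ) : Finset ℤ :=
  (Finset.Icc (-((⌈1 / (8 * h)⌉₊ : ℕ) : ℤ) - 1) ((⌈1 / (8 * h)⌉₊ : ℕ) + 1)).filter
    (fun p => volume A ≤ (2 * K : ℕ) * volume (A ∩ piece3 a e (4 * h) p))

theorem goodp_mem {A : Set (E n)} (hA : MeasurableSet A) {a e : E n} (he : ‖e‖ = 1) {δ : ℝ}
    (hAT : A ⊆ tube δ a e) {K : ℕ} {x : E n} (hx : x ∈ A) {h h' : ℝ} (hh : 0 < h)
    (hh' : h' ≤ h) (hbig : volume A ≤ (2 * K : ℕ) * fm volume A (far h') x) :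
    ⌊(inner ℝ (x - a) e : ℝ) / (4 * h)⌋ ∈ goodp A a e h K := by
  classical
  set t : ℝ := inner ℝ (x - a) e with ht
  have ht1 : |t| ≤ 1 / 2 := (hAT hx).1
  unfold goodp
  rw [Finset.mem_filter, Finset.mem_Icc]
  have h4 : 0 < 4 * h := by positivity
  have hq : |t / (4 * h)| ≤ 1 / (8 * h) := by
    rw [abs_div, abs_of_pos h4, div_le_div_iff₀ h4 (by positivity)]
    nlinarith
  have hce : 1 / (8 * h) ≤ (⌈1 / (8 * h)⌉₊ : ℝ) := Nat.le_ceil _
  have hfl := Int.floor_le (t / (4 * h))
  have hfl2 := Int.lt_floor_add_one (t / (4 * h))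
  rw [abs_le] at hq
  refine ⟨⟨?_, ?_⟩, ?_⟩
  · rw [Int.le_floor]
    push_cast
    linarith
  · have : (⌊t / (4 * h)⌋ : ℝ) ≤ ((⌈1 / (8 * h)⌉₊ : ℕ) : ℝ) + 1 := by linarith
    exact_mod_cast this
  · refine hbig.trans (mul_le_mul' le_rfl ?_)
    rw [fm_eq hA]
    apply measure_mono
    rintro y ⟨hyA, hxy⟩
    refine ⟨hyA, ?_⟩
    have h5 : ‖y - x‖ ≤ 4 * h := by
      have := hxy.2
      simp only at this
      linarith
    have h6 : |(inner ℝ (y - a) e : ℝ) - t| ≤ 4 * h := by
      have e1 : (inner ℝ (y - a) e : ℝ) - t = inner ℝ (y - x) e := by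
        rw [ht, ← inner_sub_left]
        congr 1
        abel
      rw [e1]
      have := abs_real_inner_le_norm (y - x) e
      rw [he, mul_one] at this
      exact this.trans h5
    set s : ℝ := inner ℝ (y - a) e with hs
    have h7 : |s / (4 * h) - t / (4 * h)| ≤ 1 := by
      rw [← sub_div, abs_div, abs_of_pos h4, div_le_one h4]
      exact h6
    rw [abs_le] at h7
    have hy1 : ⌊t / (4 * h)⌋ - 1 ≤ ⌊s / (4 * h)⌋ := by
      rw [Int.le_floor]
      push_cast
      linarith
    have hy2 : ⌊s / (4 * h)⌋ ≤ ⌊t / (4 * h)⌋ + 1 := by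
      have : ⌊s / (4 * h)⌋ < ⌊t / (4 * h)⌋ + 2 := by
        rw [Int.floor_lt]
        push_cast
        linarith
      omega
    have hcase : ⌊s / (4 * h)⌋ = ⌊t / (4 * h)⌋ - 1 ∨ ⌊s / (4 * h)⌋ = ⌊t / (4 * h)⌋ ∨
        ⌊s / (4 * h)⌋ = ⌊t / (4 * h)⌋ + 1 := by omega
    rcases hcase with hc | hc | hc
    · exact Or.inl (Or.inl hc)
    · exact Or.inl (Or.inr hc)
    · exact Or.inr hc

theorem sum_piece_le {A : Set (E n)} (hA : MeasurableSet A) (a e : E n) (r : ℝ)
    (s : Finset ℤ) (f : ℤ → ℤ) (hf : Function.Injective f) :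
    ∑ p ∈ s, volume (A ∩ piece a e r (f p)) ≤ volume A := by
  rw [← measure_biUnion_finset]
  · apply measure_mono
    exact iUnion₂_subset fun p _ => inter_subset_left
  · intro p _ q _ hpq
    rw [Function.onFun, Set.disjoint_left]
    rintro x ⟨_, hx1⟩ ⟨_, hx2⟩
    have h1 : ⌊(inner ℝ (x - a) e : ℝ) / r⌋ = f p := hx1
    have h2 : ⌊(inner ℝ (x - a) e : ℝ) / r⌋ = f q := hx2
    exact hpq (hf (h1.symm.trans h2))
  · intro p _
    exact hA.inter (piece_ms _ _ _ _)

theorem goodp_card {A : Set (E n)} (hA : MeasurableSet A) (a e : E n) (h : ℝ) (K : ℕ)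
    (h0 : volume A ≠ 0) (hfin : volume A ≠ ∞) : (goodp A a e h K).card ≤ 6 * K := by
  classical
  set s := goodp A a e h K with hs
  have h1 : ∑ p ∈ s, volume A ≤ ∑ p ∈ s, (2 * K : ℕ) * volume (A ∩ piece3 a e (4 * h) p) := by
    apply Finset.sum_le_sum
    intro p hp
    rw [hs, goodp, Finset.mem_filter] at hp
    exact hp.2
  have h2 : ∑ p ∈ s, volume (A ∩ piece3 a e (4 * h) p) ≤ 3 * volume A := by
    calc ∑ p ∈ s, volume (A ∩ piece3 a e (4 * h) p)
        ≤ ∑ p ∈ s, (volume (A ∩ piece a e (4 * h) (p - 1)) + volume (A ∩ piece a e (4 * h) p) +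
            volume (A ∩ piece a e (4 * h) (p + 1))) := by
          apply Finset.sum_le_sum
          intro p _
          unfold piece3
          rw [inter_union_distrib_left, inter_union_distrib_left]
          refine (measure_union_le _ _).trans (add_le_add (measure_union_le _ _) le_rfl)
      _ ≤ volume A + volume A + volume A := by
          rw [Finset.sum_add_distrib, Finset.sum_add_distrib]
          refine add_le_add (add_le_add ?_ ?_) ?_
          · exact sum_piece_le hA a e (4 * h) s (fun p => p - 1) (fun p q hpq => by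
              simp only at hpq
              omega)
          · exact sum_piece_le hA a e (4 * h) s (fun p => p) (fun p q hpq => hpq)
          · exact sum_piece_le hA a e (4 * h) s (fun p => p + 1) (fun p q hpq => by
              simp only at hpq
              omega)
      _ = 3 * volume A := by ring
  rw [Finset.sum_const, nsmul_eq_mul, ← Finset.mul_sum] at h1
  have h3 : (s.card : ℝ≥0∞) * volume A ≤ ((6 * K : ℕ) : ℝ≥0∞) * volume A := by
    refine h1.trans ((mul_le_mul' le_rfl h2).trans (le_of_eq ?_))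
    push_cast
    ring
  have h4 := (ENNReal.mul_le_mul_iff_left h0 hfin).1 h3
  exact_mod_cast h4

end Pool.Agent.H74.TD
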