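import Pool.Agent.H74.TD.Lower

/-!
The upper bound for the number of pairs.
-/

set_option autoImplicit false

open MeasureTheory Set Metric
open scoped ENNReal NNReal

namespace Pool.Agent.H74.TD
open Pool.Agent.Y254
open Pool.Agent.TH705.RR (E vb vb_pos Rod sn sn_sq sn_nonneg sn_le_one)

variable {n : ℕ}

/-- Splitting the stem into good pieces. -/
theorem split_pieces {A A' : Set (E n)} (a e : E n) (h : ℝ) (K : ℕ) (x : E n) (f : ℝ≥0∞) :
    (Yp A a e h K ∩ A').indicator 1 x * f ≤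
      ∑ p ∈ goodp A a e h K, ((A ∩ piece a e (4 * h) p) ∩ A').indicator 1 x * f := by
  by_cases hx : x ∈ Yp A a e h K ∩ A'
  · obtain ⟨⟨hxA, hxp⟩, hxA'⟩ := hx
    set p := ⌊(inner ℝ (x - a) e : ℝ) / (4 * h)⌋ with hp
    have hmem : x ∈ (A ∩ piece a e (4 * h) p) ∩ A' := ⟨⟨hxA, rfl⟩, hxA'⟩
    refine le_trans ?_ (Finset.single_le_sum (f := fun p => ((A ∩ piece a e (4 * h) p) ∩
      A').indicator (1 : E n → ℝ≥0∞) x * f) (fun _ _ => zero_le) (show p ∈ goodp A a e h K from hxp))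
    rw [indicator_of_mem hmem, indicator_of_mem (show x ∈ Yp A a e h K ∩ A' from
      ⟨⟨hxA, hxp⟩, hxA'⟩)]
  · rw [indicator_of_notMem hx, zero_mul]
    exact zero_le

/-- Splitting the hairs into classes. -/
theorem split_classes {ι : Type} {δ : ℝ} (hδ : 0 < δ) {L : ℕ} (hL : 1 < 2 ^ L * δ) (J : Finset ι)
    (g : ι → ℝ) (hg : ∀ j ∈ J, δ ≤ g j ∧ g j ≤ 1) (f : ι → ℝ≥0∞) :
    ∑ j ∈ J, f j ≤ ∑ c ∈ Finset.range L, ∑ j ∈ J.filter (fun j => 2 ^ c * δ ≤ g j ∧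
      g j ≤ 2 * (2 ^ c * δ)), f j := by
  have h1 : ∀ j ∈ J, f j ≤ ∑ c ∈ Finset.range L, if 2 ^ c * δ ≤ g j ∧ g j ≤ 2 * (2 ^ c * δ)
      then f j else 0 := by
    intro j hj
    obtain ⟨h1, h2⟩ := hg j hj
    obtain ⟨c, hc1, hc2⟩ := exists_nat_pow_near (x := g j / δ) (y := (2 : ℝ)) (by
      rw [le_div_iff₀ hδ]; linarith) (by norm_num)
    rw [le_div_iff₀ hδ] at hc1
    rw [div_lt_iff₀ hδ, pow_succ] at hc2
    have hcL : c < L := by
      by_contra hcon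
      rw [not_lt] at hcon
      have h3 : (2 : ℝ) ^ L ≤ 2 ^ c := pow_le_pow_right₀ (by norm_num) hcon
      nlinarith
    refine le_trans ?_ (Finset.single_le_sum (f := fun c => if 2 ^ c * δ ≤ g j ∧
      g j ≤ 2 * (2 ^ c * δ) then f j else 0) (fun _ _ => zero_le) (Finset.mem_range.2 hcL))
    rw [if_pos ⟨hc1, by linarith⟩]
  calc ∑ j ∈ J, f j ≤ ∑ j ∈ J, ∑ c ∈ Finset.range L, (if 2 ^ c * δ ≤ g j ∧ g j ≤ 2 * (2 ^ c * δ)
      then f j else 0) := Finset.sum_le_sum h1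
    _ = _ := by
        rw [Finset.sum_comm]
        refine Finset.sum_congr rfl fun c _ => ?_
        rw [Finset.sum_filter]

/-- The constant of `piece_bound`. -/
def PB (n : ℕ) (ε C : ℝ) : Prop := ∀ (δ : ℝ), 0 < δ → δ < 1 → ∀ {ι : Type} [Fintype ι]
    (a e : ι → E n), (∀ i, ‖e i‖ = 1) → (∀ i j, i ≠ j → δ ≤ ‖e i - e j‖) →
    (∀ i j, ‖e i - e j‖ ≤ 1) → ∀ (F G : Set (E n)), MeasurableSet G → G ⊆ F → ∀ (c : ℝ), 0 ≤ c →
    (∀ (x : E n) (r : ℝ), δ ≤ r → r ≤ 32 → volume (F ∩ closedBall x r) ≤ ENNReal.ofReal (c * r ^ 2)) →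
    ∀ (μ : ℝ), 0 < μ →
    (∀ x ∈ G, mult (fun i => tube δ (a i) (e i)) x ≤ ENNReal.ofReal (2 * μ)) →
    ∀ (h : ℝ), 0 < h → h ≤ 1 → δ ≤ 4 * h → ∀ (i : ι) (p : ℤ) (θ : ℝ), δ ≤ θ → θ ≤ 1 →
    ∀ (J : Finset ι), (∀ j ∈ J, θ ≤ ‖e i - e j‖ ∧ ‖e i - e j‖ ≤ 2 * θ) →
    (∑ j ∈ J, ∫⁻ x, ((tube δ (a i) (e i) ∩ G ∩ piece (a i) (e i) (4 * h) p) ∩
        (tube δ (a j) (e j) ∩ G)).indicator 1 x *
        fm volume (tube δ (a j) (e j) ∩ G) (far h) x) ^ 2 ≤
      ENNReal.ofReal (C * (c * δ ^ n * δ ^ (n - 1) * (h ^ 2 * h ^ (-((n : ℝ) - 2))) * δ ^ (-ε) * μ)) *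
        volume (tube δ (a i) (e i) ∩ G)

/-- The upper bound for one stem. -/
theorem stem_upper (hn : 3 ≤ n) {ε C : ℝ} (hC : 0 < C) (hPB : PB n ε C) {δ : ℝ}
    (hδ : 0 < δ) (hδ1 : δ < 1) {ι : Type} [Fintype ι] [DecidableEq ι]
    (a e : ι → E n) (he : ∀ i, ‖e i‖ = 1) (hsep : ∀ i j, i ≠ j → δ ≤ ‖e i - e j‖)
    (hpair : ∀ i j, ‖e i - e j‖ ≤ 1) {F G : Set (E n)} (hG : MeasurableSet G) (hGF : G ⊆ F)
    {c : ℝ} (hc : 0 ≤ c)
    (hF : ∀ (x : E n) (r : ℝ), δ ≤ r → r ≤ 32 → volume (F ∩ closedBall x r) ≤ ENNReal.ofReal (c * r ^ 2))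
    {μ : ℝ} (hμ : 0 < μ) (hmul : ∀ x ∈ G, mult (fun i => tube δ (a i) (e i)) x ≤ ENNReal.ofReal (2 * μ))
    {K L : ℕ} (hKδ : δ ≤ 4 * (1 / 2) ^ K) (hL : 1 < 2 ^ L * δ) (i : ι) (R : Finset ι)
    (h0 : volume (tube δ (a i) (e i) ∩ G) ≠ 0) :
    ∑ j ∈ R.erase i, ∫⁻ x, sd (tube δ (a i) (e i) ∩ G) (tube δ (a j) (e j) ∩ G) (a i) (e i) K x ≤
      ENNReal.ofReal (6 * K ^ 2 * L * Real.sqrt (C * (c * δ ^ n * δ ^ (n - 1) *
        ((((1 / 2) ^ K) ^ (n - 4))⁻¹) * δ ^ (-ε) * μ) *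
        (volume (tube δ (a i) (e i) ∩ G)).toReal)) := by
  classical
  set T : ι → Set (E n) := fun i => tube δ (a i) (e i) with hT
  have hTm : ∀ i, MeasurableSet (T i) := fun i => tube_meas _ _ _
  set A : ι → Set (E n) := fun i => T i ∩ G with hA
  have hAm : ∀ i, MeasurableSet (A i) := fun i => (hTm i).inter hG
  have hn1 : 1 ≤ n := by omega
  have hfin : volume (A i) ≠ ∞ := ne_top_of_le_ne_top ENNReal.ofReal_ne_top
    ((measure_mono (inter_subset_left : A i ⊆ T i)).trans (vol_tube hn1 (he i) hδ hδ1))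
  set v : ℝ := (volume (A i)).toReal with hv
  have hv0 : 0 ≤ v := ENNReal.toReal_nonneg
  have hve : volume (A i) = ENNReal.ofReal v := (ENNReal.ofReal_toReal hfin).symm
  set Bd : ℝ := C * (c * δ ^ n * δ ^ (n - 1) * ((((1 / 2) ^ K) ^ (n - 4))⁻¹) * δ ^ (-ε) * μ) with hBd
  have hBd0 : 0 ≤ Bd := by positivity
  -- one piece and one class
  have hone : ∀ k < K, ∀ p : ℤ, ∀ cl : ℕ,
      ∑ j ∈ (R.erase i).filter (fun j => 2 ^ cl * δ ≤ ‖e i - e j‖ ∧ ‖e i - e j‖ ≤ 2 * (2 ^ cl * δ)),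
        ∫⁻ x, ((A i ∩ piece (a i) (e i) (4 * (1 / 2) ^ k) p) ∩ A j).indicator 1 x *
          fm volume (A j) (far ((1 / 2) ^ k)) x ≤ ENNReal.ofReal (Real.sqrt (Bd * v)) := by
    intro k hk p cl
    set h : ℝ := (1 / 2) ^ k with hh
    set J := (R.erase i).filter (fun j => 2 ^ cl * δ ≤ ‖e i - e j‖ ∧
      ‖e i - e j‖ ≤ 2 * (2 ^ cl * δ)) with hJ
    rcases J.eq_empty_or_nonempty with hJe | ⟨j0, hj0⟩
    · rw [hJe, Finset.sum_empty]
      exact zero_le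
    have hθ1 : 2 ^ cl * δ ≤ 1 := ((Finset.mem_filter.1 hj0).2.1).trans (hpair i j0)
    have hθδ : δ ≤ 2 ^ cl * δ := by
      have : (1 : ℝ) ≤ 2 ^ cl := one_le_pow₀ (by norm_num)
      nlinarith
    have hh0 : 0 < h := by positivity
    have hh1 : h ≤ 1 := pow_le_one₀ (by norm_num) (by norm_num)
    have hKh : (1 / 2 : ℝ) ^ K ≤ h := pow_le_pow_of_le_one (by norm_num) (by norm_num) hk.le
    have h1 := hPB δ hδ hδ1 a e he hsep hpair F G hG hGF c hc hF μ hμ hmul h hh0 hh1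
      (by linarith) i p (2 ^ cl * δ) hθδ hθ1 J (fun j hj => (Finset.mem_filter.1 hj).2)
    have h2 : ENNReal.ofReal (C * (c * δ ^ n * δ ^ (n - 1) * (h ^ 2 * h ^ (-((n : ℝ) - 2))) *
        δ ^ (-ε) * μ)) * volume (A i) ≤ (ENNReal.ofReal (Real.sqrt (Bd * v))) ^ 2 := by
      rw [← ENNReal.ofReal_pow (Real.sqrt_nonneg _), Real.sq_sqrt (by positivity), hve,
        ← ENNReal.ofReal_mul (by positivity)]
      apply ENNReal.ofReal_le_ofReal
      have h3 : h ^ 2 * h ^ (-((n : ℝ) - 2)) ≤ (((1 / 2) ^ K) ^ (n - 4))⁻¹ := by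
        have hK0 : (0 : ℝ) < (1 / 2) ^ K := by positivity
        have e1 : h ^ 2 * h ^ (-((n : ℝ) - 2)) = h ^ (4 - (n : ℝ)) := by
          rw [← Real.rpow_natCast, ← Real.rpow_add hh0]
          congr 1
          push_cast
          ring
        have e2 : (((1 / 2 : ℝ) ^ K) ^ (n - 4))⁻¹ = ((1 / 2) ^ K) ^ (-((n - 4 : ℕ) : ℝ)) := by
          rw [Real.rpow_neg hK0.le, Real.rpow_natCast]
        rw [e1, e2]
        calc h ^ (4 - (n : ℝ)) ≤ h ^ (-((n - 4 : ℕ) : ℝ)) := by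
              apply Real.rpow_le_rpow_of_exponent_ge hh0 hh1
              have : (n : ℝ) - 4 ≤ ((n - 4 : ℕ) : ℝ) := by
                rcases le_total 4 n with h4 | h4
                · rw [Nat.cast_sub h4]
                  norm_num
                · have h5 : (n : ℝ) ≤ 4 := by exact_mod_cast h4
                  have h6 : (0 : ℝ) ≤ ((n - 4 : ℕ) : ℝ) := Nat.cast_nonneg _
                  linarith
              linarith
          _ ≤ _ := by
              apply Real.rpow_le_rpow_of_nonpos hK0 hKh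
              have h6 : (0 : ℝ) ≤ ((n - 4 : ℕ) : ℝ) := Nat.cast_nonneg _
              linarith
      rw [hBd]
      gcongr
    exact (ENNReal.pow_le_pow_left_iff two_ne_zero).1 (h1.trans h2)
  -- one scale
  have hscale : ∀ k < K, ∑ j ∈ R.erase i, ∫⁻ x, (Yp (A i) (a i) (e i) ((1 / 2) ^ k) K ∩
      A j).indicator 1 x * fm volume (A j) (far ((1 / 2) ^ k)) x ≤
      ENNReal.ofReal (6 * K * L * Real.sqrt (Bd * v)) := by
    intro k hk
    set h : ℝ := (1 / 2) ^ k with hh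
    have hm1 : ∀ j (p : ℤ), Measurable fun x => ((A i ∩ piece (a i) (e i) (4 * h) p) ∩
        A j).indicator (1 : E n → ℝ≥0∞) x * fm volume (A j) (far h) x := fun j p =>
      (measurable_one.indicator (((hAm i).inter (piece_ms _ _ _ _)).inter (hAm j))).mul
        (fm_meas (hAm j) (far_ms _))
    calc ∑ j ∈ R.erase i, ∫⁻ x, (Yp (A i) (a i) (e i) h K ∩ A j).indicator 1 x *
          fm volume (A j) (far h) x
        ≤ ∑ j ∈ R.erase i, ∫⁻ x, ∑ p ∈ goodp (A i) (a i) (e i) h K,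
          ((A i ∩ piece (a i) (e i) (4 * h) p) ∩ A j).indicator 1 x *
            fm volume (A j) (far h) x :=
          Finset.sum_le_sum fun j _ => lintegral_mono fun x => split_pieces _ _ _ _ _ _
      _ = ∑ p ∈ goodp (A i) (a i) (e i) h K, ∑ j ∈ R.erase i, ∫⁻ x,
          ((A i ∩ piece (a i) (e i) (4 * h) p) ∩ A j).indicator 1 x *
            fm volume (A j) (far h) x := by
          rw [Finset.sum_comm]
          refine Finset.sum_congr rfl fun j _ => ?_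
          rw [lintegral_finsetSum _ fun p _ => hm1 j p]
      _ ≤ ∑ p ∈ goodp (A i) (a i) (e i) h K, ENNReal.ofReal (L * Real.sqrt (Bd * v)) := by
          apply Finset.sum_le_sum
          intro p _
          refine (split_classes hδ hL (R.erase i) (fun j => ‖e i - e j‖) (fun j hj =>
            ⟨hsep i j (Finset.ne_of_mem_erase hj).symm, hpair i j⟩) _).trans ?_
          refine (Finset.sum_le_sum fun cl _ => hone k hk p cl).trans ?_
          rw [Finset.sum_const, Finset.card_range, nsmul_eq_mul,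
            ENNReal.ofReal_mul (Nat.cast_nonneg _), ENNReal.ofReal_natCast]
      _ = (goodp (A i) (a i) (e i) h K).card * ENNReal.ofReal (L * Real.sqrt (Bd * v)) := by
          rw [Finset.sum_const, nsmul_eq_mul]
      _ ≤ ((6 * K : ℕ) : ℝ≥0∞) * ENNReal.ofReal (L * Real.sqrt (Bd * v)) := by
          gcongr
          exact goodp_card (hAm i) (a i) (e i) h K h0 hfin
      _ = _ := by
          rw [← ENNReal.ofReal_natCast, ← ENNReal.ofReal_mul (Nat.cast_nonneg _)]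
          congr 1
          push_cast
          ring
  have hm2 : ∀ j (k : ℕ), Measurable fun x => (Yp (A i) (a i) (e i) ((1 / 2) ^ k) K ∩
      A j).indicator (1 : E n → ℝ≥0∞) x * fm volume (A j) (far ((1 / 2) ^ k)) x := fun j k =>
    (measurable_one.indicator ((Yp_ms (hAm i) _ _ _ K).inter (hAm j))).mul
      (fm_meas (hAm j) (far_ms _))
  calc ∑ j ∈ R.erase i, ∫⁻ x, sd (A i) (A j) (a i) (e i) K x
      = ∑ k ∈ Finset.range K, ∑ j ∈ R.erase i, ∫⁻ x, (Yp (A i) (a i) (e i) ((1 / 2) ^ k) K ∩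
          A j).indicator 1 x * fm volume (A j) (far ((1 / 2) ^ k)) x := by
        rw [Finset.sum_comm]
        refine Finset.sum_congr rfl fun j _ => ?_
        unfold sd
        rw [lintegral_finsetSum _ fun k _ => hm2 j k]
    _ ≤ ∑ k ∈ Finset.range K, ENNReal.ofReal (6 * K * L * Real.sqrt (Bd * v)) :=
        Finset.sum_le_sum fun k hk => hscale k (Finset.mem_range.1 hk)
    _ = ENNReal.ofReal (6 * K ^ 2 * L * Real.sqrt (Bd * v)) := by
        rw [Finset.sum_const, Finset.card_range, nsmul_eq_mul, ← ENNReal.ofReal_natCast,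
          ← ENNReal.ofReal_mul (Nat.cast_nonneg _)]
        congr 1
        ring

end Pool.Agent.H74.TD
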